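import Mathlib

/-!
MP_5eb27c_an: a Haar-null Borel subset of a locally compact Hausdorff group is countably
equidecomposable (left translations, Borel pieces) with a subset of any given nonempty open set.

Part 1 (helper69): abstract comparison theory for a countable group acting on a measurable space,
and the dichotomy: packing, or an invariant finitely additive set function.
Part 2 (helper16): topological groups: invariant limits, contents, uniqueness of Haar measure,
packing in second countable groups, Kakutani-Kodaira, reduction of the general case.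
-/

namespace Pool.Agent.Results.MP_5eb27c_an.NullSetsPack

section Abstract0

open scoped Pointwise ENNReal
open MeasureTheory Set Function

open Classical in
/-- indicator of a set, with values in the natural numbers. -/
noncomputable def ind {X : Type*} (A : Set X) (x : X) : ℕ := if x ∈ A then 1 else 0

section basic
variable {X : Type*}

lemma ind_of_mem {A : Set X} {x : X} (h : x ∈ A) : ind A x = 1 := by simp [ind, h]
lemma ind_of_notMem {A : Set X} {x : X} (h : x ∉ A) : ind A x = 0 := by simp [ind, h]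
lemma ind_le_one (A : Set X) (x : X) : ind A x ≤ 1 := by unfold ind; split_ifs <;> simp
lemma mem_of_ind_pos {A : Set X} {x : X} (h : 0 < ind A x) : x ∈ A := by
  by_contra hx; simp [ind_of_notMem hx] at h
lemma measurable_ind [MeasurableSpace X] {A : Set X} (hA : MeasurableSet A) :
    Measurable (ind A) := by
  unfold ind
  exact Measurable.ite hA measurable_const measurable_const

/-- rank: number of earlier sets containing the point. -/
noncomputable def rank (D : ℕ → Set X) (n : ℕ) (y : X) : ℕ := ∑ k ∈ Finset.range n, ind (D k) y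

lemma measurable_rank [MeasurableSpace X] {D : ℕ → Set X} (hD : ∀ n, MeasurableSet (D n)) (n : ℕ) :
    Measurable (rank D n) := by
  unfold rank
  exact Finset.measurable_fun_sum _ fun i _ => measurable_ind (hD i)

lemma rank_succ (D : ℕ → Set X) (n : ℕ) (y : X) : rank D (n + 1) y = rank D n y + ind (D n) y := by
  simp [rank, Finset.sum_range_succ]

lemma rank_mono (D : ℕ → Set X) (y : X) : Monotone fun n => rank D n y := by
  refine monotone_nat_of_le_succ fun n => ?_
  rw [rank_succ]; omega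

lemma rank_inj {D : ℕ → Set X} {y : X} {n m : ℕ} (hn : y ∈ D n) (hm : y ∈ D m)
    (h : rank D n y = rank D m y) : n = m := by
  by_contra hne
  rcases Nat.lt_or_gt_of_ne hne with hlt | hlt
  · have h1 := rank_mono D y (Nat.succ_le_of_lt hlt)
    simp only [Nat.succ_eq_add_one, rank_succ, ind_of_mem hn] at h1
    omega
  · have h1 := rank_mono D y (Nat.succ_le_of_lt hlt)
    simp only [Nat.succ_eq_add_one, rank_succ, ind_of_mem hm] at h1
    omega

lemma rank_le_tsum (D : ℕ → Set X) (n : ℕ) (y : X) :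
    (rank D n y : ℝ≥0∞) ≤ ∑' k, (ind (D k) y : ℝ≥0∞) := by
  unfold rank
  rw [Nat.cast_sum]
  exact ENNReal.sum_le_tsum _

lemma rank_lt {D : ℕ → Set X} {y : X} {n N : ℕ} (hn : y ∈ D n)
    (h : ∑' k, (ind (D k) y : ℝ≥0∞) ≤ N) : rank D n y < N := by
  have h1 := (rank_le_tsum D (n + 1) y).trans h
  rw [rank_succ, ind_of_mem hn] at h1
  exact_mod_cast h1

lemma exists_rank {D : ℕ → Set X} {y : X} {r : ℕ}
    (h : ((r + 1 : ℕ) : ℝ≥0∞) ≤ ∑' k, (ind (D k) y : ℝ≥0∞)) : ∃ m, y ∈ D m ∧ rank D m y = r := by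
  have h1 : ∃ K, r < rank D K y := by
    by_contra hcon
    push Not at hcon
    have h2 : ∑' k, (ind (D k) y : ℝ≥0∞) ≤ r := by
      rw [ENNReal.tsum_eq_iSup_nat]
      refine iSup_le fun K => ?_
      have := hcon K
      unfold rank at this
      rw [← Nat.cast_sum]
      exact_mod_cast this
    have h3 := h.trans h2
    have h4 : r + 1 ≤ r := by exact_mod_cast h3
    omega
  have h5 := Nat.find_spec h1
  have h6 : Nat.find h1 ≠ 0 := by
    intro h0
    rw [h0] at h5
    simp [rank] at h5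
  obtain ⟨m, hm⟩ := Nat.exists_eq_succ_of_ne_zero h6
  have h7 : ¬ r < rank D m y := Nat.find_min h1 (by omega)
  rw [hm, Nat.succ_eq_add_one, rank_succ] at h5
  have h8 := ind_le_one (D m) y
  refine ⟨m, mem_of_ind_pos ?_, ?_⟩ <;> omega

end basic

/-- `f ≼ g`: the points of `X`, with multiplicity `f`, can be moved by countably many measurable
pieces and group elements injectively into the points of `X` with multiplicity `g`. -/
def LE (Γ : Type*) {X : Type*} [Group Γ] [MulAction Γ X] [MeasurableSpace X] (f g : X → ℕ) : Prop :=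
  ∃ (A : ℕ → Set X) (γ : ℕ → Γ), (∀ n, MeasurableSet (A n)) ∧
    (∀ x, (f x : ℝ≥0∞) ≤ ∑' n, (ind (A n) x : ℝ≥0∞)) ∧
    ∀ y, ∑' n, (ind (γ n • A n) y : ℝ≥0∞) ≤ g y

section LE
variable {Γ X : Type*} [Group Γ] [MulAction Γ X] [MeasurableSpace X]

lemma LE.of_index {ι : Type*} [Countable ι] {f g : X → ℕ} (A : ι → Set X) (γ : ι → Γ)
    (hA : ∀ i, MeasurableSet (A i)) (hf : ∀ x, (f x : ℝ≥0∞) ≤ ∑' i, (ind (A i) x : ℝ≥0∞))
    (hg : ∀ y, ∑' i, (ind (γ i • A i) y : ℝ≥0∞) ≤ g y) : LE Γ f g := by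
  obtain ⟨e, he⟩ := exists_injective_nat ι
  have key : ∀ (B : ι → Set X) (z : X), ∑' n, (ind (extend e B (fun _ => ∅) n) z : ℝ≥0∞) =
      ∑' i, (ind (B i) z : ℝ≥0∞) := by
    intro B z
    rw [← tsum_extend_zero he]
    congr 1
    funext n
    by_cases hn : ∃ i, e i = n
    · obtain ⟨i, rfl⟩ := hn
      rw [he.extend_apply, he.extend_apply]
    · rw [extend_apply' _ _ _ hn, extend_apply' _ _ _ hn]
      simp [ind]
  refine ⟨extend e A (fun _ => ∅), extend e γ (fun _ => 1), ?_, ?_, ?_⟩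
  · intro n
    by_cases hn : ∃ i, e i = n
    · obtain ⟨i, rfl⟩ := hn
      rw [he.extend_apply]; exact hA i
    · rw [extend_apply' _ _ _ hn]; exact MeasurableSet.empty
  · intro x
    rw [key]; exact hf x
  · intro y
    have h1 : (fun n => extend e γ (fun _ => (1 : Γ)) n • extend e A (fun _ => (∅ : Set X)) n) =
        extend e (fun i => γ i • A i) (fun _ => ∅) := by
      funext n
      by_cases hn : ∃ i, e i = n
      · obtain ⟨i, rfl⟩ := hn
        simp only [he.extend_apply]
      · simp only [extend_apply' _ _ _ hn, smul_set_empty]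
    have h2 := key (fun i => γ i • A i) y
    rw [← h1] at h2
    rw [h2]
    exact hg y

lemma LE.of_le {f g : X → ℕ} (hf : Measurable f) (h : ∀ x, f x ≤ g x) : LE Γ f g := by
  have key : ∀ x, ∑' n, (ind {x | n < f x} x : ℝ≥0∞) = f x := by
    intro x
    rw [tsum_eq_sum (s := Finset.range (f x))]
    · rw [Finset.sum_congr rfl (g := fun _ => (1 : ℝ≥0∞))]
      · simp
      · intro n hn
        rw [ind_of_mem (by simpa using hn)]
        simp
    · intro n hn
      rw [ind_of_notMem (by simpa using hn)]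
      simp
  refine ⟨fun n => {x | n < f x}, fun _ => 1, fun n => measurableSet_lt measurable_const hf, ?_, ?_⟩
  · intro x
    rw [key]
  · intro y
    simp only [one_smul]
    rw [key]
    exact_mod_cast h y

lemma LE.refl {f : X → ℕ} (hf : Measurable f) : LE Γ f f := LE.of_le hf fun _ => le_rfl

lemma LE.mono_left {f f' g : X → ℕ} (h : LE Γ f g) (h' : ∀ x, f' x ≤ f x) : LE Γ f' g := by
  obtain ⟨A, γ, hA, hf, hg⟩ := h
  exact ⟨A, γ, hA, fun x => (by exact_mod_cast h' x : (f' x : ℝ≥0∞) ≤ f x).trans (hf x), hg⟩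

lemma LE.mono_right {f g g' : X → ℕ} (h : LE Γ f g) (h' : ∀ x, g x ≤ g' x) : LE Γ f g' := by
  obtain ⟨A, γ, hA, hf, hg⟩ := h
  exact ⟨A, γ, hA, hf, fun x => (hg x).trans (by exact_mod_cast h' x)⟩

lemma LE.add {f g f' g' : X → ℕ} (h : LE Γ f g) (h' : LE Γ f' g') :
    LE Γ (fun x => f x + f' x) (fun x => g x + g' x) := by
  obtain ⟨A, γ, hA, hf, hg⟩ := h
  obtain ⟨A', γ', hA', hf', hg'⟩ := h'
  refine LE.of_index (ι := Bool × ℕ) (fun p => if p.1 then A p.2 else A' p.2)
    (fun p => if p.1 then γ p.2 else γ' p.2) ?_ ?_ ?_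
  · rintro ⟨b, n⟩
    cases b <;> simp [hA, hA']
  · intro x
    rw [ENNReal.tsum_prod', tsum_bool]
    push_cast
    simp only [if_true]
    rw [add_comm]
    exact add_le_add (hf' x) (hf x)
  · intro y
    rw [ENNReal.tsum_prod', tsum_bool]
    push_cast
    simp only [if_true]
    rw [add_comm (g y : ℝ≥0∞)]
    exact add_le_add (hg' y) (hg y)

lemma LE.sum {ι : Type*} (s : Finset ι) {f g : ι → X → ℕ} (h : ∀ i ∈ s, LE Γ (f i) (g i)) :
    LE Γ (fun x => ∑ i ∈ s, f i x) (fun x => ∑ i ∈ s, g i x) := by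
  classical
  induction s using Finset.induction_on with
  | empty =>
    simp only [Finset.sum_empty]
    exact LE.refl measurable_const
  | insert a s ha ih =>
    simp only [Finset.sum_insert ha]
    exact (h a (Finset.mem_insert_self a s)).add
      (ih fun i hi => h i (Finset.mem_insert_of_mem hi))

lemma LE.mul {f g : X → ℕ} (k : ℕ) (h : LE Γ f g) : LE Γ (fun x => k * f x) (fun x => k * g x) := by
  induction k with
  | zero =>
    simp only [zero_mul]
    exact LE.refl measurable_const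
  | succ k ih =>
    simp only [add_mul, one_mul]
    exact ih.add h


omit [MeasurableSpace X] in
lemma tsum_ind_le_one {ι : Type*} {D : ι → Set X} {y : X}
    (h : ∀ n m, y ∈ D n → y ∈ D m → n = m) : ∑' n, (ind (D n) y : ℝ≥0∞) ≤ 1 := by
  by_cases hex : ∃ n, y ∈ D n
  · obtain ⟨n, hn⟩ := hex
    rw [tsum_eq_single n]
    · exact_mod_cast ind_le_one _ _
    · intro m hm
      rw [ind_of_notMem fun h' => hm (h m n h' hn)]
      simp
  · push Not at hex
    rw [ENNReal.tsum_eq_zero.2]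
    · exact zero_le
    · intro n
      rw [ind_of_notMem (hex n)]
      simp

omit [MeasurableSpace X] in
lemma tsum_ind_le {ι : Type*} {D : ι → Set X} {B : Set X} {y : X}
    (h : ∀ n m, y ∈ D n → y ∈ D m → n = m) (h' : ∀ n, y ∈ D n → y ∈ B) :
    ∑' n, (ind (D n) y : ℝ≥0∞) ≤ ind B y := by
  by_cases hB : y ∈ B
  · rw [ind_of_mem hB]
    simpa using tsum_ind_le_one h
  · rw [ENNReal.tsum_eq_zero.2]
    · exact zero_le
    · intro n
      rw [ind_of_notMem fun h'' => hB (h' n h'')]
      simp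

omit [MeasurableSpace X] in
lemma one_le_tsum_ind {ι : Type*} {D : ι → Set X} {y : X} (h : ∃ n, y ∈ D n) :
    (1 : ℝ≥0∞) ≤ ∑' n, (ind (D n) y : ℝ≥0∞) := by
  obtain ⟨n, hn⟩ := h
  refine le_trans ?_ (ENNReal.le_tsum n)
  rw [ind_of_mem hn]
  simp

omit [MeasurableSpace X] in
lemma ind_le_tsum_ind {ι : Type*} {D : ι → Set X} {A : Set X} {y : X} (h : y ∈ A → ∃ n, y ∈ D n) :
    (ind A y : ℝ≥0∞) ≤ ∑' n, (ind (D n) y : ℝ≥0∞) := by
  by_cases hA : y ∈ A
  · rw [ind_of_mem hA]
    simpa using one_le_tsum_ind (h hA)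
  · rw [ind_of_notMem hA]
    simp

lemma LE.of_inj {ι : Type*} [Countable ι] {A B : Set X} (P : ι → Set X) (e : ι → Γ)
    (hP : ∀ i, MeasurableSet (P i)) (hcov : ∀ x ∈ A, ∃ i, x ∈ P i)
    (hinj : ∀ y n m, y ∈ e n • P n → y ∈ e m • P m → n = m)
    (hmap : ∀ n, ∀ y ∈ e n • P n, y ∈ B) : LE Γ (ind A) (ind B) :=
  LE.of_index P e hP (fun x => ind_le_tsum_ind (hcov x))
    fun y => tsum_ind_le (hinj y) fun n h => hmap n y h

variable [MeasurableConstSMul Γ X]

lemma LE.trans {f g h : X → ℕ} (h1 : LE Γ f g) (h2 : LE Γ g h) : LE Γ f h := by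
  obtain ⟨A, γ, hA, hf, hg⟩ := h1
  obtain ⟨B, δ, hB, hg', hh⟩ := h2
  set D : ℕ → Set X := fun n => γ n • A n with hD
  have hDm : ∀ n, MeasurableSet (D n) := fun n => (hA n).const_smul _
  set C : ℕ × ℕ → Set X := fun p => D p.1 ∩ B p.2 ∩ {y | rank D p.1 y = rank B p.2 y} with hC
  have hCm : ∀ p, MeasurableSet (C p) := fun p =>
    ((hDm _).inter (hB _)).inter (measurableSet_eq_fun (measurable_rank hDm _) (measurable_rank hB _))
  refine LE.of_index (ι := ℕ × ℕ) (fun p => (γ p.1)⁻¹ • C p) (fun p => δ p.2 * γ p.1)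
    (fun p => (hCm p).const_smul _) ?_ ?_
  · intro x
    rw [ENNReal.tsum_prod']
    refine (hf x).trans (ENNReal.tsum_le_tsum fun n => ind_le_tsum_ind fun hx => ?_)
    have hy : γ n • x ∈ D n := smul_mem_smul_set hx
    have h3 := rank_lt hy (hg _)
    obtain ⟨m, hm, hr⟩ := exists_rank (D := B) (y := γ n • x) (r := rank D n (γ n • x))
      (le_trans (by exact_mod_cast h3) (hg' _))
    refine ⟨m, ?_⟩
    rw [mem_inv_smul_set_iff]
    exact ⟨⟨hy, hm⟩, hr.symm⟩
  · intro z
    rw [ENNReal.tsum_prod', ENNReal.tsum_comm]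
    refine le_trans (ENNReal.tsum_le_tsum fun m => ?_) (hh z)
    have h3 : ∀ n, (δ m * γ n) • (γ n)⁻¹ • C (n, m) = δ m • C (n, m) := by
      intro n
      rw [mul_smul, smul_inv_smul]
    simp only [h3]
    refine tsum_ind_le ?_ ?_
    · intro n n' hn hn'
      rw [mem_smul_set_iff_inv_smul_mem] at hn hn'
      refine rank_inj (D := D) (y := (δ m)⁻¹ • z) hn.1.1 hn'.1.1 ?_
      have e1 : rank D n ((δ m)⁻¹ • z) = rank B m ((δ m)⁻¹ • z) := hn.2
      have e2 : rank D n' ((δ m)⁻¹ • z) = rank B m ((δ m)⁻¹ • z) := hn'.2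
      rw [e1, e2]
    · intro n hn
      rw [mem_smul_set_iff_inv_smul_mem] at hn ⊢
      exact hn.1.2

omit [MeasurableConstSMul Γ X] in
lemma LE.smul_right {A : Set X} (hA : MeasurableSet A) (γ : Γ) :
    LE Γ (ind A) (ind (γ • A)) := by
  refine LE.of_inj (ι := Unit) (fun _ => A) (fun _ => γ) (fun _ => hA) (fun x hx => ⟨(), hx⟩)
    (fun _ _ _ _ _ => rfl) fun _ y hy => hy

lemma LE.smul_left {A : Set X} (hA : MeasurableSet A) (γ : Γ) :
    LE Γ (ind (γ • A)) (ind A) := by
  refine LE.of_inj (ι := Unit) (fun _ => γ • A) (fun _ => γ⁻¹) (fun _ => hA.const_smul _)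
    (fun x hx => ⟨(), hx⟩) (fun _ _ _ _ _ => rfl) fun _ y hy => ?_
  rwa [inv_smul_smul] at hy

/-- invariant sets -/
def Inv (Γ : Type*) {X : Type*} [Group Γ] [MulAction Γ X] (Z : Set X) : Prop :=
  ∀ (γ : Γ), ∀ x ∈ Z, γ • x ∈ Z

omit [MeasurableSpace X] [MeasurableConstSMul Γ X] in
lemma Inv.iff {Z : Set X} (h : Inv Γ Z) (γ : Γ) (x : X) : γ • x ∈ Z ↔ x ∈ Z := by
  refine ⟨fun hx => ?_, h γ x⟩
  have := h γ⁻¹ _ hx
  rwa [inv_smul_smul] at this

omit [MeasurableSpace X] [MeasurableConstSMul Γ X] in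
lemma Inv.compl {Z : Set X} (h : Inv Γ Z) : Inv Γ Zᶜ := by
  intro γ x hx h'
  exact hx ((h.iff γ x).1 h')

omit [MeasurableConstSMul Γ X] in
lemma LE.restrict {f g : X → ℕ} (h : LE Γ f g) {Z : Set X} (hZ : Inv Γ Z)
    (hZm : MeasurableSet Z) : LE Γ (fun x => ind Z x * f x) (fun x => ind Z x * g x) := by
  obtain ⟨A, γ, hA, hf, hg⟩ := h
  refine ⟨fun n => A n ∩ Z, γ, fun n => (hA n).inter hZm, ?_, ?_⟩
  · intro x
    beta_reduce
    by_cases hx : x ∈ Z
    · rw [ind_of_mem hx]
      simp only [one_mul]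
      refine (hf x).trans (ENNReal.tsum_le_tsum fun n => ?_)
      by_cases hx' : x ∈ A n
      · rw [ind_of_mem hx', ind_of_mem (show x ∈ A n ∩ Z from ⟨hx', hx⟩)]
      · rw [ind_of_notMem hx']; simp
    · rw [ind_of_notMem hx]; simp
  · intro y
    beta_reduce
    by_cases hy : y ∈ Z
    · rw [ind_of_mem hy]
      simp only [one_mul]
      refine le_trans (ENNReal.tsum_le_tsum fun n => ?_) (hg y)
      by_cases hx' : y ∈ γ n • (A n ∩ Z)
      · have h2 : y ∈ γ n • A n := by
          rw [mem_smul_set_iff_inv_smul_mem] at hx' ⊢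
          exact hx'.1
        rw [ind_of_mem hx', ind_of_mem h2]
      · rw [ind_of_notMem hx']; simp
    · rw [ENNReal.tsum_eq_zero.2]
      · exact zero_le
      · intro n
        rw [ind_of_notMem]
        · simp
        · intro h'
          rw [mem_smul_set_iff_inv_smul_mem] at h'
          exact hy ((hZ.iff _ _).1 h'.2)

end LE

end Abstract0

section Abstract1

open scoped Pointwise ENNReal
open MeasureTheory Set Function

variable {Γ X : Type*} [Group Γ] [MulAction Γ X] [MeasurableSpace X] [MeasurableConstSMul Γ X]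

/-- the greedy construction -/
noncomputable def st (e : ℕ → Γ) (A B : Set X) : ℕ → Set X × Set X
  | 0 => (A, B)
  | n + 1 => ((st e A B n).1 \ {x ∈ (st e A B n).1 | e n • x ∈ (st e A B n).2},
      (st e A B n).2 \ (e n • {x ∈ (st e A B n).1 | e n • x ∈ (st e A B n).2}))

/-- the points placed at stage `n` -/
def pl (e : ℕ → Γ) (A B : Set X) (n : ℕ) : Set X :=
  {x ∈ (st e A B n).1 | e n • x ∈ (st e A B n).2}

omit [MeasurableSpace X] [MeasurableConstSMul Γ X] in
lemma st_succ_fst (e : ℕ → Γ) (A B : Set X) (n : ℕ) :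
    (st e A B (n + 1)).1 = (st e A B n).1 \ pl e A B n := rfl

omit [MeasurableSpace X] [MeasurableConstSMul Γ X] in
lemma st_succ_snd (e : ℕ → Γ) (A B : Set X) (n : ℕ) :
    (st e A B (n + 1)).2 = (st e A B n).2 \ (e n • pl e A B n) := rfl

lemma st_meas (e : ℕ → Γ) {A B : Set X} (hA : MeasurableSet A) (hB : MeasurableSet B) (n : ℕ) :
    MeasurableSet (st e A B n).1 ∧ MeasurableSet (st e A B n).2 ∧ MeasurableSet (pl e A B n) := by
  induction n with
  | zero => exact ⟨hA, hB, hA.inter (measurable_const_smul (e 0) hB)⟩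
  | succ n ih =>
    have h0 : MeasurableSet (pl e A B n) := ih.2.2
    have h1 : MeasurableSet (st e A B (n + 1)).1 := ih.1.diff h0
    have h2 : MeasurableSet (st e A B (n + 1)).2 := ih.2.1.diff (h0.const_smul _)
    exact ⟨h1, h2, h1.inter (measurable_const_smul (e (n + 1)) h2)⟩

omit [MeasurableSpace X] [MeasurableConstSMul Γ X] in
lemma st_anti (e : ℕ → Γ) (A B : Set X) : Antitone fun n => (st e A B n).1 :=
  antitone_nat_of_succ_le fun n => by
    change (st e A B (n + 1)).1 ⊆ (st e A B n).1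
    rw [st_succ_fst]; exact sdiff_subset

omit [MeasurableSpace X] [MeasurableConstSMul Γ X] in
lemma st_anti' (e : ℕ → Γ) (A B : Set X) : Antitone fun n => (st e A B n).2 :=
  antitone_nat_of_succ_le fun n => by
    change (st e A B (n + 1)).2 ⊆ (st e A B n).2
    rw [st_succ_snd]; exact sdiff_subset

omit [MeasurableSpace X] [MeasurableConstSMul Γ X] in
lemma pl_inj (e : ℕ → Γ) (A B : Set X) (x : X) (n m : ℕ) (hn : x ∈ pl e A B n)
    (hm : x ∈ pl e A B m) : n = m := by
  have key : ∀ n m, n < m → x ∈ pl e A B n → x ∈ pl e A B m → False := by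
    intro n m hlt hn hm
    have h1 : x ∈ (st e A B (n + 1)).1 := st_anti e A B (Nat.succ_le_of_lt hlt) hm.1
    rw [st_succ_fst] at h1
    exact h1.2 hn
  rcases lt_trichotomy n m with h | h | h
  · exact (key n m h hn hm).elim
  · exact h
  · exact (key m n h hm hn).elim

omit [MeasurableSpace X] [MeasurableConstSMul Γ X] in
lemma smul_pl_sub (e : ℕ → Γ) (A B : Set X) (n : ℕ) : e n • pl e A B n ⊆ (st e A B n).2 := by
  rintro _ ⟨x, hx, rfl⟩
  exact hx.2

omit [MeasurableSpace X] [MeasurableConstSMul Γ X] in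
lemma smul_pl_inj (e : ℕ → Γ) (A B : Set X) (y : X) (n m : ℕ) (hn : y ∈ e n • pl e A B n)
    (hm : y ∈ e m • pl e A B m) : n = m := by
  have key : ∀ n m, n < m → y ∈ e n • pl e A B n → y ∈ e m • pl e A B m → False := by
    intro n m hlt hn hm
    have h1 : y ∈ (st e A B (n + 1)).2 :=
      st_anti' e A B (Nat.succ_le_of_lt hlt) (smul_pl_sub e A B m hm)
    rw [st_succ_snd] at h1
    exact h1.2 hn
  rcases lt_trichotomy n m with h | h | h
  · exact (key n m h hn hm).elim
  · exact h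
  · exact (key m n h hm hn).elim

/-- Comparison: outside an invariant set `A` goes into `B`, inside `B` goes into `A`. -/
lemma comparison [Countable Γ] {A B : Set X} (hA : MeasurableSet A) (hB : MeasurableSet B) :
    ∃ Z : Set X, MeasurableSet Z ∧ Inv Γ Z ∧ LE Γ (ind (A \ Z)) (ind (B \ Z)) ∧
      LE Γ (ind (B ∩ Z)) (ind (A ∩ Z)) := by
  classical
  obtain ⟨e, he⟩ := exists_surjective_nat Γ
  set R : Set X := ⋂ n, (st e A B n).1 with hR
  have hRm : MeasurableSet R := MeasurableSet.iInter fun n => (st_meas e hA hB n).1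
  have hPm : ∀ n, MeasurableSet (pl e A B n) := fun n => (st_meas e hA hB n).2.2
  set Z : Set X := ⋃ γ : Γ, (fun x => γ • x) ⁻¹' R with hZ
  have hZm : MeasurableSet Z := MeasurableSet.iUnion fun γ => measurable_const_smul γ hRm
  have hZi : Inv Γ Z := by
    intro γ x hx
    rw [hZ, mem_iUnion] at hx ⊢
    obtain ⟨δ, hδ⟩ := hx
    refine ⟨δ * γ⁻¹, ?_⟩
    rw [mem_preimage] at hδ ⊢
    rwa [mul_smul, inv_smul_smul]
  refine ⟨Z, hZm, hZi, ?_, ?_⟩
  · refine LE.of_inj (fun n => pl e A B n \ Z) e (fun n => (hPm n).diff hZm) ?_ ?_ ?_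
    · intro x hx
      have h1 : ∃ n, x ∉ (st e A B n).1 := by
        by_contra hcon
        push Not at hcon
        refine hx.2 (mem_iUnion.2 ⟨1, ?_⟩)
        rw [mem_preimage, one_smul]
        exact mem_iInter.2 hcon
      have h5 := Nat.find_spec h1
      have h6 : Nat.find h1 ≠ 0 := by
        intro h0
        rw [h0] at h5
        exact h5 hx.1
      obtain ⟨m, hm⟩ := Nat.exists_eq_succ_of_ne_zero h6
      have h7 : ¬ x ∉ (st e A B m).1 := Nat.find_min h1 (by omega)
      rw [not_not] at h7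
      rw [hm, Nat.succ_eq_add_one, st_succ_fst] at h5
      refine ⟨m, ?_, hx.2⟩
      by_contra hcon
      exact h5 ⟨h7, hcon⟩
    · intro y n m hn hm
      exact smul_pl_inj e A B y n m (smul_set_mono sdiff_subset hn) (smul_set_mono sdiff_subset hm)
    · intro n y hy
      refine ⟨st_anti' e A B (Nat.zero_le n) (smul_pl_sub e A B n (smul_set_mono sdiff_subset hy)),
        ?_⟩
      intro hyZ
      rw [mem_smul_set_iff_inv_smul_mem] at hy
      exact hy.2 (hZi _ _ hyZ)
  · have claim : ∀ y ∈ B ∩ Z, ∃ n, y ∈ e n • pl e A B n := by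
      intro y hy
      by_contra hcon
      push Not at hcon
      have h1 : ∀ n, y ∈ (st e A B n).2 := by
        intro n
        induction n with
        | zero => exact hy.1
        | succ n ih =>
          rw [st_succ_snd]
          exact ⟨ih, hcon n⟩
      obtain ⟨γ, hγ⟩ := mem_iUnion.1 hy.2
      obtain ⟨n, hn⟩ := he γ⁻¹
      rw [mem_preimage] at hγ
      have h2 : γ • y ∈ pl e A B n := by
        refine ⟨mem_iInter.1 hγ n, ?_⟩
        rw [hn, inv_smul_smul]
        exact h1 n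
      have h3 := mem_iInter.1 hγ (n + 1)
      rw [st_succ_fst] at h3
      exact h3.2 h2
    have key : ∀ n z, z ∈ (e n)⁻¹ • (e n • pl e A B n ∩ Z) ↔ z ∈ pl e A B n ∧ e n • z ∈ Z := by
      intro n z
      rw [mem_inv_smul_set_iff, mem_inter_iff, smul_mem_smul_set_iff]
    refine LE.of_inj (fun n => e n • pl e A B n ∩ Z) (fun n => (e n)⁻¹)
      (fun n => ((hPm n).const_smul _).inter hZm) ?_ ?_ ?_
    · intro y hy
      obtain ⟨n, hn⟩ := claim y hy
      exact ⟨n, hn, hy.2⟩
    · intro y n m hn hm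
      rw [key] at hn hm
      exact pl_inj e A B y n m hn.1 hm.1
    · intro n y hy
      rw [key] at hy
      exact ⟨st_anti e A B (Nat.zero_le n) hy.1.1, (hZi.iff _ _).1 hy.2⟩

omit [MeasurableConstSMul Γ X] in
lemma mul_of_le {f g : X → ℕ} (hf : Measurable f) (h : ∀ x, f x ≤ g x) (k : ℕ) :
    LE Γ (fun x => k * f x) (fun x => k * g x) := LE.mul k (LE.of_le hf h)

/-- D2 -/
lemma absorb_all {a : X → ℕ} {N : ℕ}
    (h : LE Γ (fun x => (N + 1) * a x) (fun x => N * a x)) (ha : Measurable a) (k : ℕ) :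
    LE Γ (fun x => k * a x) (fun x => N * a x) := by
  induction k with
  | zero => exact h.mono_left fun x => by simp
  | succ k ih =>
    have h1 := (ih.add (LE.refl (Γ := Γ) ha))
    have h2 : LE Γ (fun x => (k + 1) * a x) (fun x => (N + 1) * a x) := by
      simpa only [add_mul, one_mul] using h1
    exact h2.trans h

/-- union step for D3 -/
lemma union_step [Countable Γ] {A P Q : Set X} (hP : MeasurableSet P)
    (hQ : MeasurableSet Q) {n : ℕ} (h1 : LE Γ (fun x => 2 * n * ind P x) (ind A))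
    (h2 : LE Γ (fun x => 2 * n * ind Q x) (ind A)) :
    LE Γ (fun x => n * ind (P ∪ Q) x) (ind A) := by
  have main : ∀ (P Q W : Set X), MeasurableSet P → MeasurableSet Q → MeasurableSet W → Inv Γ W →
      LE Γ (ind (P ∩ W)) (ind (Q ∩ W)) → LE Γ (fun x => 2 * n * ind Q x) (ind A) →
      LE Γ (fun x => n * ind ((P ∪ Q) ∩ W) x) (ind (A ∩ W)) := by
    intro P Q W hP hQ hW hWi hPQ hQA
    have e1 : LE Γ (fun x => n * ind ((P ∪ Q) ∩ W) x)
        (fun x => n * (ind (P ∩ W) x + ind (Q ∩ W) x)) := by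
      refine mul_of_le (measurable_ind ((hP.union hQ).inter hW)) (fun x => ?_) n
      by_cases hx : x ∈ P <;> by_cases hx' : x ∈ Q <;> by_cases hw : x ∈ W <;>
        simp [ind, hx, hx', hw]
    have e2 : LE Γ (fun x => n * (ind (P ∩ W) x + ind (Q ∩ W) x))
        (fun x => n * (ind (Q ∩ W) x + ind (Q ∩ W) x)) :=
      LE.mul n (hPQ.add (LE.refl (measurable_ind (hQ.inter hW))))
    have e3 : (fun x => n * (ind (Q ∩ W) x + ind (Q ∩ W) x)) =
        fun x => ind W x * (2 * n * ind Q x) := by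
      funext x
      by_cases hx' : x ∈ Q <;> by_cases hw : x ∈ W <;> simp [ind, hx', hw]
      ring
    have e4 := hQA.restrict hWi hW
    have e5 : (fun x => ind W x * ind A x) = ind (A ∩ W) := by
      funext x
      by_cases hx' : x ∈ A <;> by_cases hw : x ∈ W <;> simp [ind, hx', hw]
    rw [e5] at e4
    rw [e3] at e2
    exact (e1.trans e2).trans e4
  obtain ⟨Z, hZm, hZi, hc1, hc2⟩ := comparison (Γ := Γ) hP hQ
  have m1 := main P Q Zᶜ hP hQ hZm.compl hZi.compl hc1 h2
  have m2 := main Q P Z hQ hP hZm hZi hc2 h1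
  have m3 := m1.add m2
  have e1 : (fun x => n * ind ((P ∪ Q) ∩ Zᶜ) x + n * ind ((Q ∪ P) ∩ Z) x) =
      fun x => n * ind (P ∪ Q) x := by
    funext x
    by_cases hx : x ∈ P <;> by_cases hx' : x ∈ Q <;> by_cases hw : x ∈ Z <;>
      simp [ind, hx, hx', hw]
  have e2 : (fun x => ind (A ∩ Zᶜ) x + ind (A ∩ Z) x) = ind A := by
    funext x
    by_cases hx : x ∈ A <;> by_cases hw : x ∈ Z <;> simp [ind, hx, hw]
  rw [e1, e2] at m3
  exact m3

lemma union_many [Countable Γ] {A : Set X} (P : ℕ → Set X)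
    (hP : ∀ l, MeasurableSet (P l)) (N : ℕ) : ∀ M : ℕ,
    (∀ l < N, LE Γ (fun x => 2 ^ N * M * ind (P l) x) (ind A)) →
    LE Γ (fun x => M * ind (⋃ l ∈ Finset.range N, P l) x) (ind A) := by
  induction N with
  | zero =>
    intro M _
    refine LE.of_le (measurable_const.mul (measurable_ind ?_)) fun x => ?_
    · simp
    · simp [ind]
  | succ N ih =>
    intro M hM
    have h1 := ih (2 * M) fun l hl => by
      have := hM l (by omega)
      have e : (fun x => 2 ^ N * (2 * M) * ind (P l) x) =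
          fun x => 2 ^ (N + 1) * M * ind (P l) x := by
        funext x; ring
      rw [e]; exact this
    have h2 : LE Γ (fun x => 2 * M * ind (P N) x) (ind A) := by
      refine (hM N (by omega)).mono_left fun x => ?_
      have : 1 ≤ 2 ^ N := Nat.one_le_two_pow
      have h3 : 2 * M * ind (P N) x * 1 ≤ 2 * M * ind (P N) x * 2 ^ N := Nat.mul_le_mul_left _ this
      calc 2 * M * ind (P N) x = 2 * M * ind (P N) x * 1 := by ring
        _ ≤ _ := h3
        _ = _ := by ring
    have h3 := union_step (Finset.measurableSet_biUnion _ fun l _ => hP l) (hP N) h1 h2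
    have e : (⋃ l ∈ Finset.range (N + 1), P l) = (⋃ l ∈ Finset.range N, P l) ∪ P N := by
      rw [Finset.range_add_one, Finset.set_biUnion_insert, union_comm]
    rw [e]; exact h3

/-- D3: if all multiples of `A` go into `N` copies of `A`, they go into `A`. -/
lemma absorb [Countable Γ] {A : Set X} {N : ℕ}
    (h : ∀ k : ℕ, LE Γ (fun x => k * ind A x) (fun x => N * ind A x)) (M : ℕ) :
    LE Γ (fun x => M * ind A x) (ind A) := by
  obtain ⟨P, γ, hP, hf, hg⟩ := h ((N + 1) * (2 ^ (N + 1) * M + 1))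
  set D : ℕ → Set X := fun n => γ n • P n with hD
  have hDm : ∀ n, MeasurableSet (D n) := fun n => (hP n).const_smul _
  have hg' : ∀ y, ∑' n, (ind (D n) y : ℝ≥0∞) ≤ (N + 1 : ℕ) := by
    intro y
    refine (hg y).trans ?_
    have h1 := ind_le_one A y
    have h2 : N * ind A y ≤ N + 1 := by nlinarith
    exact_mod_cast h2
  set Pl : ℕ → ℕ → Set X := fun l n => {x ∈ P n | rank D n (γ n • x) = l} with hPl
  have hPlm : ∀ l n, MeasurableSet (Pl l n) := fun l n =>
    (hP n).inter (measurableSet_eq_fun ((measurable_rank hDm n).comp (measurable_const_smul (γ n)))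
      measurable_const)
  have hmemPl : ∀ l n y, y ∈ γ n • Pl l n → y ∈ D n ∧ rank D n y = l := by
    intro l n y hy
    obtain ⟨x, hx, rfl⟩ := hy
    exact ⟨smul_mem_smul_set hx.1, hx.2⟩
  set W : ℕ → Set X := fun l =>
    {x | ((2 ^ (N + 1) * M : ℕ) : ℝ≥0∞) ≤ ∑' n, (ind (Pl l n) x : ℝ≥0∞)} with hW
  have hWm : ∀ l, MeasurableSet (W l) := by
    intro l
    refine measurableSet_le measurable_const ?_
    exact Measurable.tsum fun n => (measurable_from_top).comp (measurable_ind (hPlm l n))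
  have h1 : ∀ l < N + 1, LE Γ (fun x => 2 ^ (N + 1) * M * ind (W l) x) (ind A) := by
    intro l _
    refine ⟨Pl l, γ, hPlm l, ?_, ?_⟩
    · intro x
      beta_reduce
      by_cases hx : x ∈ W l
      · rw [ind_of_mem hx, mul_one]
        exact hx
      · rw [ind_of_notMem hx]; simp
    · intro y
      refine tsum_ind_le ?_ ?_
      · intro n m hn hm
        obtain ⟨hn1, hn2⟩ := hmemPl l n y hn
        obtain ⟨hm1, hm2⟩ := hmemPl l m y hm
        exact rank_inj hn1 hm1 (hn2.trans hm2.symm)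
      · intro n hn
        obtain ⟨hn1, hn2⟩ := hmemPl l n y hn
        have h2 := (one_le_tsum_ind ⟨n, hn1⟩).trans (hg y)
        have h3 : 1 ≤ N * ind A y := by exact_mod_cast h2
        refine mem_of_ind_pos ?_
        by_contra h4
        have h5 : ind A y = 0 := by omega
        rw [h5] at h3
        omega
  have h2 := union_many W hWm (N + 1) M h1
  refine h2.mono_left fun x => Nat.mul_le_mul_left _ ?_
  by_cases hx : x ∈ A
  · have h3 : ∃ l < N + 1, x ∈ W l := by
      by_contra hcon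
      push Not at hcon
      have h4 : ∑ l ∈ Finset.range (N + 1), ∑' n, (ind (Pl l n) x : ℝ≥0∞) ≤
          ∑ l ∈ Finset.range (N + 1), ((2 ^ (N + 1) * M : ℕ) : ℝ≥0∞) := by
        refine Finset.sum_le_sum fun l hl => ?_
        have := hcon l (Finset.mem_range.1 hl)
        exact le_of_lt (not_le.1 this)
      have h5 : ∑' n, (ind (P n) x : ℝ≥0∞) ≤
          ∑ l ∈ Finset.range (N + 1), ∑' n, (ind (Pl l n) x : ℝ≥0∞) := by
        have e1 : ∀ n, (ind (P n) x : ℝ≥0∞) ≤
            ∑ l ∈ Finset.range (N + 1), (ind (Pl l n) x : ℝ≥0∞) := by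
          intro n
          by_cases hn : x ∈ P n
          · have h6 : rank D n (γ n • x) < N + 1 :=
              rank_lt (show γ n • x ∈ D n from smul_mem_smul_set hn) (hg' _)
            refine le_trans ?_ (Finset.single_le_sum
              (f := fun l => (ind (Pl l n) x : ℝ≥0∞)) (fun i _ => zero_le)
              (Finset.mem_range.2 h6))
            have h7 : x ∈ Pl (rank D n (γ n • x)) n := ⟨hn, rfl⟩
            rw [ind_of_mem h7]
            exact_mod_cast ind_le_one _ _
          · rw [ind_of_notMem hn]; simp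
        refine (ENNReal.tsum_le_tsum e1).trans ?_
        rw [Summable.tsum_finsetSum fun i _ => ENNReal.summable]
      have h6 := ((hf x).trans h5).trans h4
      beta_reduce at h6
      rw [ind_of_mem hx, Finset.sum_const, Finset.card_range, nsmul_eq_mul] at h6
      have h7 : (N + 1) * (2 ^ (N + 1) * M + 1) * 1 ≤ (N + 1) * (2 ^ (N + 1) * M) := by
        exact_mod_cast h6
      nlinarith
    obtain ⟨l, hl, hxl⟩ := h3
    have h8 : x ∈ ⋃ l ∈ Finset.range (N + 1), W l :=
      mem_iUnion₂.2 ⟨l, Finset.mem_range.2 hl, hxl⟩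
    rw [ind_of_mem hx, ind_of_mem h8]
  · rw [ind_of_notMem hx]; exact Nat.zero_le _

/-- D4 -/
lemma no_absorb {a : X → ℕ} (ha : Measurable a)
    (hno : ∀ N : ℕ, ¬ LE Γ (fun x => (N + 1) * a x) (fun x => N * a x)) {h : X → ℕ}
    (hh : Measurable h) {M : ℕ} (hM : LE Γ h (fun x => M * a x)) (r : ℕ) :
    ¬ LE Γ (fun x => h x + (r + 1) * a x) (fun x => h x + r * a x) := by
  intro H
  have key : ∀ s : ℕ, LE Γ (fun x => h x + (r + s) * a x) (fun x => h x + r * a x) := by
    intro s
    induction s with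
    | zero => exact LE.of_le (hh.add (measurable_const.mul ha)) fun x => by simp
    | succ s ih =>
      have h1 := ih.add (LE.refl (Γ := Γ) ha)
      have e1 : (fun x => h x + (r + s) * a x + a x) = fun x => h x + (r + (s + 1)) * a x := by
        funext x; ring
      have e2 : (fun x => h x + r * a x + a x) = fun x => h x + (r + 1) * a x := by
        funext x; ring
      rw [e1, e2] at h1
      exact_mod_cast h1.trans H
  refine hno (M + r) ?_
  have h1 : LE Γ (fun x => (M + r + 1) * a x) (fun x => h x + r * a x) := by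
    refine (key (M + 1)).mono_left fun x => ?_
    have : (M + r + 1) * a x = (r + (M + 1)) * a x := by ring
    rw [this]
    exact Nat.le_add_left _ _
  have h2 : LE Γ (fun x => h x + r * a x) (fun x => M * a x + r * a x) :=
    hM.add (LE.refl (measurable_const.mul ha))
  have h3 := h1.trans h2
  have e1 : (fun x => M * a x + r * a x) = fun x => (M + r) * a x := by
    funext x; ring
  rw [e1] at h3
  exact_mod_cast h3

end Abstract1

section Abstract2

open scoped Pointwise ENNReal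
open MeasureTheory Set Function

variable (Γ : Type*) {X : Type*} [Group Γ] [MulAction Γ X] [MeasurableSpace X]

/-- functions dominated by a multiple of `a` -/
def Cls (a f : X → ℕ) : Prop := Measurable f ∧ ∃ M : ℕ, LE Γ f (fun x => M * a x)

variable {Γ}

lemma Cls.zero {a : X → ℕ} : Cls Γ a (fun _ => 0) :=
  ⟨measurable_const, 0, LE.of_le measurable_const fun x => by simp⟩

lemma Cls.self {a : X → ℕ} (ha : Measurable a) : Cls Γ a a :=
  ⟨ha, 1, LE.of_le ha fun x => by simp⟩

lemma Cls.add {a f g : X → ℕ} (hf : Cls Γ a f) (hg : Cls Γ a g) :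
    Cls Γ a (fun x => f x + g x) := by
  obtain ⟨hf, M, hM⟩ := hf
  obtain ⟨hg, N, hN⟩ := hg
  refine ⟨hf.add hg, M + N, ?_⟩
  simpa only [add_mul] using hM.add hN

lemma Cls.mul {a f : X → ℕ} (hf : Cls Γ a f) (k : ℕ) : Cls Γ a (fun x => k * f x) := by
  obtain ⟨hf, M, hM⟩ := hf
  refine ⟨measurable_const.mul hf, k * M, ?_⟩
  simpa only [mul_assoc] using hM.mul k

/-- functions bounded by a member of the class -/
def dom (Γ : Type*) {X : Type*} [Group Γ] [MulAction Γ X] [MeasurableSpace X] (a : X → ℕ)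
    (ha : Measurable a) : Submodule ℝ (X → ℝ) where
  carrier := {y | ∃ R, Cls Γ a R ∧ ∀ x, |y x| ≤ R x}
  add_mem' := by
    rintro y z ⟨R, hR, hy⟩ ⟨S, hS, hz⟩
    refine ⟨_, hR.add hS, fun x => ?_⟩
    push_cast
    exact (abs_add_le _ _).trans (add_le_add (hy x) (hz x))
  zero_mem' := ⟨_, Cls.zero, fun x => by simp⟩
  smul_mem' := by
    rintro c y ⟨R, hR, hy⟩
    refine ⟨_, hR.mul ⌈|c|⌉₊, fun x => ?_⟩
    push_cast
    simp only [Pi.smul_apply, smul_eq_mul, abs_mul]
    exact mul_le_mul (Nat.le_ceil _) (hy x) (abs_nonneg _) (Nat.cast_nonneg _)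

/-- the cone of almost positive elements -/
def cone (Γ : Type*) {X : Type*} [Group Γ] [MulAction Γ X] [MeasurableSpace X] (a : X → ℕ)
    (ha : Measurable a) : PointedCone ℝ (dom Γ a ha) where
  carrier := {u | ∃ R, Cls Γ a R ∧ ∀ n : ℕ, ∃ F G, Cls Γ a F ∧ Cls Γ a G ∧ LE Γ F G ∧
    ∀ x, (G x : ℝ) - F x - R x ≤ n * (u : X → ℝ) x}
  add_mem' := by
    rintro u v ⟨R, hR, hu⟩ ⟨S, hS, hv⟩
    refine ⟨_, hR.add hS, fun n => ?_⟩
    obtain ⟨F, G, hF, hG, hFG, h⟩ := hu n
    obtain ⟨F', G', hF', hG', hFG', h'⟩ := hv n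
    refine ⟨_, _, hF.add hF', hG.add hG', hFG.add hFG', fun x => ?_⟩
    have h1 := h x
    have h2 := h' x
    push_cast
    simp only [Pi.add_apply]
    linarith
  zero_mem' := by
    refine ⟨_, Cls.zero, fun n => ⟨_, _, Cls.zero, Cls.zero, LE.refl measurable_const,
      fun x => ?_⟩⟩
    simp
  smul_mem' := by
    rintro ⟨c, hc⟩ u ⟨R, hR, hu⟩
    obtain ⟨F1, G1, hF1, hG1, hFG1, h1⟩ := hu 1
    refine ⟨_, (hR.mul 2).add hF1, fun n => ?_⟩
    obtain ⟨F, G, hF, hG, hFG, h⟩ := hu ⌊n * c⌋₊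
    refine ⟨F, G, hF, hG, hFG, fun x => ?_⟩
    have e1 : ((((⟨c, hc⟩ : {c : ℝ // 0 ≤ c}) • u : dom Γ a ha) : X → ℝ) x) = c * (u : X → ℝ) x :=
      rfl
    rw [e1]
    have h2 := h x
    have h3 := h1 x
    push_cast at h3 ⊢
    have h4 : (⌊(n : ℝ) * c⌋₊ : ℝ) ≤ n * c := Nat.floor_le (by positivity)
    have h5 : (n : ℝ) * c < ⌊(n : ℝ) * c⌋₊ + 1 := Nat.lt_floor_add_one _
    have h6 : (0 : ℝ) ≤ F1 x := Nat.cast_nonneg _
    have h7 : (0 : ℝ) ≤ G1 x := Nat.cast_nonneg _
    have h8 : (0 : ℝ) ≤ R x := Nat.cast_nonneg _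
    set t : ℝ := n * c - ⌊(n : ℝ) * c⌋₊ with ht
    have h9 : 0 ≤ t := by linarith
    have h10 : t ≤ 1 := by linarith
    have h11 : -(F1 x + R x : ℝ) ≤ t * (u : X → ℝ) x := by
      have : -(F1 x + R x : ℝ) ≤ (u : X → ℝ) x := by linarith
      nlinarith
    have h12 : (n : ℝ) * (c * (u : X → ℝ) x) =
        ⌊(n : ℝ) * c⌋₊ * (u : X → ℝ) x + t * (u : X → ℝ) x := by
      rw [ht]; ring
    rw [h12]
    linarith

variable [MeasurableConstSMul Γ X]

theorem exists_state {a : X → ℕ} (ha : Measurable a)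
    (hno : ∀ N : ℕ, ¬ LE Γ (fun x => (N + 1) * a x) (fun x => N * a x)) :
    ∃ L : (X → ℕ) → ℝ, (∀ f g, Cls Γ a f → Cls Γ a g → L (fun x => f x + g x) = L f + L g) ∧
      (∀ f g, Cls Γ a f → Cls Γ a g → LE Γ f g → L f ≤ L g) ∧ L a = 1 := by
  classical
  have hmem : ∀ f : X → ℕ, Cls Γ a f → (fun x => (f x : ℝ)) ∈ dom Γ a ha := fun f hf =>
    ⟨f, hf, fun x => by simp⟩
  set a' : dom Γ a ha := ⟨fun x => (a x : ℝ), hmem a (Cls.self ha)⟩ with ha'
  have ha0 : a' ≠ 0 := by
    intro h0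
    refine hno 0 ?_
    have h1 : ∀ x, a x = 0 := by
      intro x
      have := congrArg (fun u : dom Γ a ha => (u : X → ℝ) x) h0
      simpa [ha'] using this
    exact LE.of_le (measurable_const.mul ha) fun x => by simp [h1]
  have key : ∀ t : ℝ, t • a' ∈ cone Γ a ha → 0 ≤ t := by
    rintro t ⟨R, hR, hu⟩
    by_contra hneg
    push Not at hneg
    obtain ⟨hRm, M, hM⟩ := hR
    obtain ⟨n, hn⟩ := exists_nat_gt ((M + 1) / (-t))
    have hn' : (M : ℝ) + 1 ≤ n * (-t) := by
      rw [div_lt_iff₀ (by linarith)] at hn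
      exact hn.le
    obtain ⟨F, G, hF, hG, hFG, h⟩ := hu n
    obtain ⟨hGm, K, hK⟩ := hG
    refine no_absorb ha hno hGm hK M ?_
    have h1 : LE Γ (fun x => G x + (M + 1) * a x) (fun x => F x + R x) := by
      refine LE.of_le (hGm.add (measurable_const.mul ha)) fun x => ?_
      have h2 := h x
      have e : ((t • a' : dom Γ a ha) : X → ℝ) x = t * a x := rfl
      rw [e] at h2
      have h3 : (0 : ℝ) ≤ a x := Nat.cast_nonneg _
      have h4 : ((M : ℝ) + 1) * a x ≤ n * (-t) * a x := mul_le_mul_of_nonneg_right hn' h3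
      have h5 : (G x : ℝ) + (M + 1) * a x ≤ F x + R x := by nlinarith
      exact_mod_cast h5
    exact h1.trans (hFG.add hM)
  set f0 : dom Γ a ha →ₗ.[ℝ] ℝ :=
    LinearPMap.mkSpanSingleton (K := ℝ) (L := ℝ) (σ := RingHom.id ℝ) a' (1 : ℝ) ha0 with hf0
  have hnonneg : ∀ x : f0.domain, (x : dom Γ a ha) ∈ cone Γ a ha → 0 ≤ f0 x := by
    rintro ⟨x, hx⟩ hxs
    obtain ⟨t, rfl⟩ := Submodule.mem_span_singleton.1 hx
    have h1 := key t hxs
    have e : f0 ⟨t • a', hx⟩ = t :=
      (LinearPMap.mkSpanSingleton'_apply a' (1 : ℝ) _ t hx).trans (by simp)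
    rw [e]
    exact h1
  have hdense : ∀ y : dom Γ a ha, ∃ x : f0.domain, (x : dom Γ a ha) + y ∈ cone Γ a ha := by
    intro y
    obtain ⟨R, hR, hy⟩ := y.2
    obtain ⟨hRm, M, hM⟩ := hR
    refine ⟨⟨(M : ℝ) • a', Submodule.smul_mem _ _ (Submodule.mem_span_singleton_self a')⟩, ?_⟩
    refine ⟨_, Cls.zero, fun n => ⟨_, _, (show Cls Γ a R from ⟨hRm, M, hM⟩).mul n,
      ((Cls.self ha).mul M).mul n, hM.mul n, fun x => ?_⟩⟩
    have h1 := hy x
    have h2 := neg_le_of_abs_le h1
    have e : (((M : ℝ) • a' + y : dom Γ a ha) : X → ℝ) x = M * a x + (y : X → ℝ) x := rfl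
    rw [e]
    push_cast
    have h3 : (0 : ℝ) ≤ n := Nat.cast_nonneg _
    nlinarith
  obtain ⟨g, hg1, hg2⟩ := riesz_extension (cone Γ a ha) f0 hnonneg hdense
  refine ⟨fun f => if h : Cls Γ a f then g ⟨fun x => (f x : ℝ), hmem f h⟩ else 0, ?_, ?_, ?_⟩
  · intro f1 f2 h1 h2
    simp only [dif_pos h1, dif_pos h2, dif_pos (h1.add h2)]
    rw [← map_add]
    congr 1
    ext x
    simp
  · intro f1 f2 h1 h2 h12
    simp only [dif_pos h1, dif_pos h2]
    rw [← sub_nonneg, ← map_sub]
    apply hg2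
    refine ⟨_, Cls.zero, fun n => ⟨_, _, h1.mul n, h2.mul n, h12.mul n, fun x => ?_⟩⟩
    simp only [Submodule.coe_sub, Pi.sub_apply]
    push_cast
    linarith
  · simp only [dif_pos (Cls.self (Γ := Γ) ha)]
    have h1 := hg1 ⟨a', Submodule.mem_span_singleton_self a'⟩
    exact h1.trans (LinearPMap.mkSpanSingleton_apply ℝ ℝ ha0 (1 : ℝ))

omit [MeasurableConstSMul Γ X] in
lemma LE.pieces {V U : Set X} (hV : MeasurableSet V) (h : LE Γ (ind V) (ind U)) :
    ∃ (A : ℕ → Set X) (g : ℕ → Γ), (∀ i, MeasurableSet (A i)) ∧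
      Pairwise (Function.onFun Disjoint A) ∧ (⋃ i, A i) = V ∧
      Pairwise (Function.onFun Disjoint fun i => g i • A i) ∧ ∀ i, g i • A i ⊆ U := by
  obtain ⟨P, γ, hP, hf, hg⟩ := h
  have hsub : ∀ n, disjointed (fun n => V ∩ P n) n ⊆ P n := fun n =>
    (disjointed_subset _ n).trans inter_subset_right
  have hone : ∀ y, ∑' n, (ind (γ n • P n) y : ℝ≥0∞) ≤ (1 : ℕ) := fun y =>
    (hg y).trans (by exact_mod_cast ind_le_one U y)
  refine ⟨disjointed (fun n => V ∩ P n), γ, ?_, disjoint_disjointed _, ?_, ?_, ?_⟩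
  · exact fun n => MeasurableSet.disjointed (fun n => hV.inter (hP n)) n
  · rw [iUnion_disjointed]
    refine Subset.antisymm (iUnion_subset fun n => inter_subset_left) fun x hx => ?_
    have h1 := hf x
    rw [ind_of_mem hx] at h1
    by_contra hcon
    have h2 : ∑' n, (ind (P n) x : ℝ≥0∞) = 0 := by
      rw [ENNReal.tsum_eq_zero]
      intro n
      have : x ∉ P n := fun h' => hcon (mem_iUnion.2 ⟨n, hx, h'⟩)
      rw [ind_of_notMem this]; simp
    rw [h2] at h1
    simp at h1
  · intro n m hnm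
    refine Set.disjoint_left.2 fun y hn hm => hnm ?_
    have hn' : y ∈ γ n • P n := smul_set_mono (hsub n) hn
    have hm' : y ∈ γ m • P m := smul_set_mono (hsub m) hm
    refine rank_inj (D := fun n => γ n • P n) hn' hm' ?_
    have h1 := rank_lt (D := fun n => γ n • P n) hn' (hone y)
    have h2 := rank_lt (D := fun n => γ n • P n) hm' (hone y)
    omega
  · intro n y hn
    have hn' : y ∈ γ n • P n := smul_set_mono (hsub n) hn
    have h1 := (one_le_tsum_ind (D := fun n => γ n • P n) ⟨n, hn'⟩).trans (hg y)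
    refine mem_of_ind_pos ?_
    exact_mod_cast h1

omit [MeasurableSpace X] [MeasurableConstSMul Γ X] in
lemma Inv.smul_inter {Z : Set X} (hZ : Inv Γ Z) (A : Set X) (γ : Γ) :
    γ • (A ∩ Z) = γ • A ∩ Z := by
  ext y
  rw [mem_inter_iff, mem_smul_set_iff_inv_smul_mem, mem_smul_set_iff_inv_smul_mem, mem_inter_iff,
    hZ.iff]

omit [MeasurableConstSMul Γ X] in
/-- The dichotomy. -/
theorem dichotomy [Countable Γ] (hm : ∀ γ : Γ, Measurable (fun x : X => γ • x)) {V U : Set X}
    (hV : MeasurableSet V) (hU : MeasurableSet U)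
    (hcov : ∃ F : Finset Γ, V ⊆ ⋃ γ ∈ F, γ • U) :
    (∃ (A : ℕ → Set X) (g : ℕ → Γ), (∀ i, MeasurableSet (A i)) ∧
      Pairwise (Function.onFun Disjoint A) ∧ (⋃ i, A i) = V ∧
      Pairwise (Function.onFun Disjoint fun i => g i • A i) ∧ ∀ i, g i • A i ⊆ U) ∨
    (∃ m : Set X → ℝ≥0∞,
      (∀ A B, MeasurableSet A → MeasurableSet B → Disjoint A B → m (A ∪ B) = m A + m B) ∧
      (∀ (γ : Γ) A, MeasurableSet A → m (γ • A) = m A) ∧
      (∀ A B, MeasurableSet A → MeasurableSet B → A ⊆ B → m A ≤ m B) ∧ m U = 1 ∧ 1 ≤ m V) := by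
  classical
  have : MeasurableConstSMul Γ X := ⟨hm⟩
  obtain ⟨Z, hZm, hZi, hc1, hc2⟩ := comparison (Γ := Γ) hV hU
  have ham : Measurable (ind (U ∩ Z)) := measurable_ind (hU.inter hZm)
  by_cases hno : ∀ N : ℕ, ¬ LE Γ (fun x => (N + 1) * ind (U ∩ Z) x) (fun x => N * ind (U ∩ Z) x)
  · right
    obtain ⟨L, hL1, hL2, hL3⟩ := exists_state ham hno
    have hL0 : L (fun _ => 0) = 0 := by
      have := hL1 _ _ (Cls.zero (Γ := Γ) (a := ind (U ∩ Z))) Cls.zero
      simp only [add_zero] at this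
      linarith
    have hLnn : ∀ f, Cls Γ (ind (U ∩ Z)) f → 0 ≤ L f := by
      intro f hf
      rw [← hL0]
      exact hL2 _ _ Cls.zero hf (LE.of_le measurable_const fun x => Nat.zero_le _)
    have hcls : ∀ A B : Set X, MeasurableSet A → LE Γ (ind A) (ind B) → Cls Γ (ind (U ∩ Z)) (ind B) →
        Cls Γ (ind (U ∩ Z)) (ind A) := by
      rintro A B hA hAB ⟨_, M, hM⟩
      exact ⟨measurable_ind hA, M, hAB.trans hM⟩
    set m : Set X → ℝ≥0∞ := fun B =>
      if Cls Γ (ind (U ∩ Z)) (ind (B ∩ Z)) then ENNReal.ofReal (L (ind (B ∩ Z))) else ∞ with hmdef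
    have hmle : ∀ A B : Set X, MeasurableSet A → MeasurableSet B →
        LE Γ (ind (A ∩ Z)) (ind (B ∩ Z)) → m A ≤ m B := by
      intro A B hA hB hAB
      by_cases h1 : Cls Γ (ind (U ∩ Z)) (ind (B ∩ Z))
      · have h2 := hcls _ _ (hA.inter hZm) hAB h1
        simp only [hmdef, if_pos h1, if_pos h2]
        exact ENNReal.ofReal_le_ofReal (hL2 _ _ h2 h1 hAB)
      · simp only [hmdef, if_neg h1]
        exact le_top
    have hmono : ∀ A B : Set X, MeasurableSet A → A ⊆ B → LE Γ (ind (A ∩ Z)) (ind (B ∩ Z)) := by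
      intro A B hA hAB
      refine LE.of_le (measurable_ind (hA.inter hZm)) fun x => ?_
      by_cases h1 : x ∈ A ∩ Z
      · rw [ind_of_mem h1, ind_of_mem (show x ∈ B ∩ Z from ⟨hAB h1.1, h1.2⟩)]
      · rw [ind_of_notMem h1]; exact Nat.zero_le _
    refine ⟨m, ?_, ?_, ?_, ?_, ?_⟩
    · intro A B hA hB hdis
      have e1 : ind ((A ∪ B) ∩ Z) = fun x => ind (A ∩ Z) x + ind (B ∩ Z) x := by
        funext x
        by_cases hx : x ∈ A
        · have hx' : x ∉ B := fun h => Set.disjoint_left.1 hdis hx h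
          by_cases hz : x ∈ Z <;> simp [ind, hx, hx', hz]
        · by_cases hx' : x ∈ B <;> by_cases hz : x ∈ Z <;> simp [ind, hx, hx', hz]
      by_cases h1 : Cls Γ (ind (U ∩ Z)) (ind (A ∩ Z))
      · by_cases h2 : Cls Γ (ind (U ∩ Z)) (ind (B ∩ Z))
        · have h3 : Cls Γ (ind (U ∩ Z)) (ind ((A ∪ B) ∩ Z)) := by
            rw [e1]; exact h1.add h2
          simp only [hmdef, if_pos h1, if_pos h2, if_pos h3]
          rw [← ENNReal.ofReal_add (hLnn _ h1) (hLnn _ h2), e1, hL1 _ _ h1 h2]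
        · have h3 : ¬ Cls Γ (ind (U ∩ Z)) (ind ((A ∪ B) ∩ Z)) := fun h3 =>
            h2 (hcls _ _ (hB.inter hZm) (hmono _ _ hB subset_union_right) h3)
          simp only [hmdef, if_neg h2, if_neg h3, add_top]
      · have h3 : ¬ Cls Γ (ind (U ∩ Z)) (ind ((A ∪ B) ∩ Z)) := fun h3 =>
          h1 (hcls _ _ (hA.inter hZm) (hmono _ _ hA subset_union_left) h3)
        simp only [hmdef, if_neg h1, if_neg h3, top_add]
    · intro γ A hA
      have hA' : MeasurableSet (γ • A) := hA.const_smul γ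
      have e : γ • A ∩ Z = γ • (A ∩ Z) := (hZi.smul_inter A γ).symm
      refine le_antisymm (hmle _ _ hA' hA ?_) (hmle _ _ hA hA' ?_)
      · rw [e]; exact LE.smul_left (hA.inter hZm) γ
      · rw [e]; exact LE.smul_right (hA.inter hZm) γ
    · intro A B hA hB hAB
      exact hmle _ _ hA hB (hmono _ _ hA hAB)
    · simp only [hmdef, if_pos (Cls.self (Γ := Γ) ham), hL3, ENNReal.ofReal_one]
    · by_cases h1 : Cls Γ (ind (U ∩ Z)) (ind (V ∩ Z))
      · simp only [hmdef, if_pos h1]
        rw [ENNReal.one_le_ofReal, ← hL3]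
        exact hL2 _ _ (Cls.self ham) h1 hc2
      · simp only [hmdef, if_neg h1]
        exact le_top
  · left
    push Not at hno
    obtain ⟨N, hN⟩ := hno
    have h1 := absorb (fun k => absorb_all hN ham k)
    obtain ⟨F, hF⟩ := hcov
    have h2 : LE Γ (ind (V ∩ Z)) (fun x => ∑ γ ∈ F, ind (γ • (U ∩ Z)) x) := by
      refine LE.of_le (measurable_ind (hV.inter hZm)) fun x => ?_
      by_cases hx : x ∈ V ∩ Z
      · obtain ⟨γ, hγ, hxγ⟩ := mem_iUnion₂.1 (hF hx.1)
        have h3 : x ∈ γ • (U ∩ Z) := by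
          rw [hZi.smul_inter]; exact ⟨hxγ, hx.2⟩
        rw [ind_of_mem hx, ← ind_of_mem h3]
        exact Finset.single_le_sum (f := fun γ => ind (γ • (U ∩ Z)) x)
          (fun i _ => Nat.zero_le _) hγ
      · rw [ind_of_notMem hx]; exact Nat.zero_le _
    have h3 : LE Γ (fun x => ∑ γ ∈ F, ind (γ • (U ∩ Z)) x) (fun x => ∑ _γ ∈ F, ind (U ∩ Z) x) :=
      LE.sum F fun γ _ => LE.smul_left (hU.inter hZm) γ
    have e3 : (fun x => ∑ _γ ∈ F, ind (U ∩ Z) x) = fun x => F.card * ind (U ∩ Z) x := by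
      funext x; simp
    rw [e3] at h3
    have h4 := (h2.trans h3).trans (h1 F.card)
    have h5 := hc1.add h4
    have e4 : ∀ W : Set X, (fun x => ind (W \ Z) x + ind (W ∩ Z) x) = ind W := by
      intro W
      funext x
      by_cases hx : x ∈ W <;> by_cases hz : x ∈ Z <;> simp [ind, hx, hz]
    rw [e4, e4] at h5
    exact h5.pieces hV

end Abstract2

section Groups

open Set Filter Topology MeasureTheory Pointwise
open scoped ENNReal NNReal

theorem exists_nhds_conj {G : Type*} [Group G] [TopologicalSpace G] [IsTopologicalGroup G]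
    {K : Set G} (hK : IsCompact K) {V : Set G} (hV : V ∈ 𝓝 (1:G)) :
    ∃ W ∈ 𝓝 (1:G), ∀ x ∈ K, ∀ w ∈ W, x⁻¹ * w * x ∈ V := by
  have := hK.eventually_forall_of_forall_eventually (x₀ := (1:G))
    (P := fun w x => x⁻¹ * w * x ∈ V) ?_
  · exact ⟨_, this, fun x hx w hw => hw x hx⟩
  · intro x hx
    have h : Tendsto (fun z : G × G => z.2⁻¹ * z.1 * z.2) (𝓝 (1, x)) (𝓝 1) := by
      apply Continuous.tendsto'
      · fun_prop
      · simp
    exact h hV

theorem kk_step {G : Type*} [Group G] [TopologicalSpace G] [IsTopologicalGroup G]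
    [LocallyCompactSpace G] [T2Space G]
    {K : Set G} (hK : IsCompact K) {V W : Set G} (hV : V ∈ 𝓝 (1:G)) (hW : W ∈ 𝓝 (1:G)) :
    ∃ V' ∈ 𝓝 (1:G), IsCompact V' ∧ V'⁻¹ = V' ∧ V' * V' ⊆ V ∩ W ∧
      ∀ x ∈ K, ∀ v ∈ V', x⁻¹ * v * x ∈ V := by
  obtain ⟨W₁, hW₁, hc⟩ := exists_nhds_conj hK hV
  obtain ⟨W₂, hW₂, hm⟩ : ∃ W₂ ∈ 𝓝 (1:G), W₂ * W₂ ⊆ V ∩ W := by
    obtain ⟨W₂, ho, h1, h2⟩ := exists_open_nhds_one_mul_subset (inter_mem hV hW)
    exact ⟨W₂, ho.mem_nhds h1, h2⟩
  obtain ⟨C, hCn, hCsub, hCc⟩ := local_compact_nhds (inter_mem hW₁ hW₂)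
  refine ⟨C ∩ C⁻¹, inter_mem hCn (inv_mem_nhds_one G hCn), hCc.inter hCc.inv, ?_, ?_, ?_⟩
  · rw [inter_inv, inv_inv, inter_comm]
  · refine (mul_subset_mul ?_ ?_).trans hm
    · exact inter_subset_left.trans (hCsub.trans inter_subset_right)
    · exact inter_subset_left.trans (hCsub.trans inter_subset_right)
  · intro x hx v hv
    exact hc x hx v (hCsub hv.1).1

theorem kk_seq {G : Type*} [Group G] [TopologicalSpace G] [IsTopologicalGroup G]
    [LocallyCompactSpace G] [T2Space G]
    (K : ℕ → Set G) (hK : ∀ n, IsCompact (K n)) (W : ℕ → Set G) (hW : ∀ n, W n ∈ 𝓝 (1:G)) :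
    ∃ V : ℕ → Set G, (∀ n, V n ∈ 𝓝 (1:G)) ∧ (∀ n, IsCompact (V n)) ∧ (∀ n, (V n)⁻¹ = V n) ∧
      (∀ n, V (n+1) * V (n+1) ⊆ V n) ∧ (∀ n, V (n + 1) ⊆ W n) ∧
      ∀ n, ∀ x ∈ K n, ∀ v ∈ V (n+1), x⁻¹ * v * x ∈ V n := by
  have step : ∀ (n : ℕ) (V : {V : Set G // V ∈ 𝓝 (1:G)}), ∃ V' : {V : Set G // V ∈ 𝓝 (1:G)},
      IsCompact V'.1 ∧ (V'.1)⁻¹ = V'.1 ∧ V'.1 * V'.1 ⊆ V.1 ∩ W n ∧
      ∀ x ∈ K n, ∀ v ∈ V'.1, x⁻¹ * v * x ∈ V.1 := by
    intro n V
    obtain ⟨V', h1, h2⟩ := kk_step (hK n) V.2 (hW n)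
    exact ⟨⟨V', h1⟩, h2⟩
  choose f hf using step
  obtain ⟨C, -, -, -⟩ := kk_step (isCompact_empty (X := G)) univ_mem univ_mem
  obtain ⟨C0, hC0, hC0c, hC0i, -, -⟩ := kk_step (isCompact_empty (X := G)) univ_mem univ_mem
  let V : ℕ → {V : Set G // V ∈ 𝓝 (1:G)} := fun n => Nat.rec ⟨C0, hC0⟩ (fun n V => f n V) n
  have hV : ∀ n, V (n+1) = f n (V n) := fun n => rfl
  have hsub : ∀ n, (V (n+1)).1 ⊆ (V (n+1)).1 * (V (n+1)).1 := by
    intro n x hx
    exact ⟨x, hx, 1, mem_of_mem_nhds (V (n+1)).2, by simp⟩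
  refine ⟨fun n => (V n).1, fun n => (V n).2, ?_, ?_, ?_, ?_, ?_⟩
  · intro n
    cases n with
    | zero => exact hC0c
    | succ n => exact (hf n (V n)).1
  · intro n
    cases n with
    | zero => exact hC0i
    | succ n => exact (hf n (V n)).2.1
  · intro n
    exact ((hf n (V n)).2.2.1).trans inter_subset_left
  · intro n
    exact (hsub n).trans (((hf n (V n)).2.2.1).trans inter_subset_right)
  · intro n
    exact (hf n (V n)).2.2.2

/-- Kakutani–Kodaira -/
theorem kakutani_kodaira_subgroup {G : Type*} [Group G] [TopologicalSpace G] [IsTopologicalGroup G]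
    [LocallyCompactSpace G] [T2Space G] [SigmaCompactSpace G]
    (W : ℕ → Set G) (hW : ∀ n, W n ∈ 𝓝 (1:G)) :
    ∃ (N : Subgroup G), N.Normal ∧ IsCompact (N : Set G) ∧ (∀ n, (N : Set G) ⊆ W n) ∧
      ∃ V : ℕ → Set G, (∀ n, V n ∈ 𝓝 (1:G)) ∧ ∀ O : Set G, IsOpen O → (N : Set G) ⊆ O →
        ∃ n, V n ⊆ O := by
  obtain ⟨V, hVn, hVc, hVi, hVm, hVW, hVconj⟩ := kk_seq (compactCovering G)
    (isCompact_compactCovering G) W hW
  have hsub : ∀ n, V (n+1) ⊆ V n := by
    intro n x hx
    exact hVm n ⟨x, hx, 1, mem_of_mem_nhds (hVn (n+1)), by simp⟩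
  have hanti : Antitone V := antitone_nat_of_succ_le hsub
  let N : Subgroup G :=
    { carrier := ⋂ n, V n
      mul_mem' := by
        intro a b ha hb
        rw [mem_iInter] at *
        intro n
        exact hVm n ⟨a, ha (n+1), b, hb (n+1), rfl⟩
      one_mem' := by
        rw [mem_iInter]
        exact fun n => mem_of_mem_nhds (hVn n)
      inv_mem' := by
        intro a ha
        rw [mem_iInter] at *
        intro n
        rw [← hVi n]
        simpa using ha n }
  have hN : (N : Set G) = ⋂ n, V n := rfl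
  have hNc : IsCompact (N : Set G) := by
    rw [hN]
    exact (hVc 0).of_isClosed_subset (isClosed_iInter fun n => (hVc n).isClosed) (iInter_subset _ 0)
  refine ⟨N, ⟨?_⟩, hNc, ?_, V, hVn, ?_⟩
  · intro n hn g
    have hn' : ∀ k, n ∈ V k := by
      have : n ∈ (N : Set G) := hn
      rwa [hN, mem_iInter] at this
    change g * n * g⁻¹ ∈ (N : Set G)
    rw [hN, mem_iInter]
    intro k
    obtain ⟨m, hm⟩ := exists_mem_compactCovering (g⁻¹)
    have h1 : g⁻¹ ∈ compactCovering G (max m k) := compactCovering_subset G (le_max_left _ _) hm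
    have h2 := hVconj _ _ h1 n (hn' (max m k + 1))
    rw [inv_inv] at h2
    exact hanti (le_max_right m k) h2
  · intro n
    rw [hN]
    exact (iInter_subset _ (n+1)).trans (hVW n)
  · intro O hO hNO
    refine exists_subset_nhds_of_isCompact (directed_of_isDirected_le ?_) hVc ?_
    · intro i j hij
      exact hanti hij
    · intro x hx
      exact hO.mem_nhds (hNO hx)

theorem kakutani_kodaira {G : Type*} [Group G] [TopologicalSpace G] [IsTopologicalGroup G]
    [LocallyCompactSpace G] [T2Space G] [SigmaCompactSpace G]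
    (W : ℕ → Set G) (hW : ∀ n, W n ∈ 𝓝 (1:G)) :
    ∃ (N : Subgroup G) (_ : N.Normal), IsCompact (N : Set G) ∧ (∀ n, (N : Set G) ⊆ W n) ∧
      SecondCountableTopology (G ⧸ N) := by
  obtain ⟨N, hNn, hNc, hNW, V, hVn, hVO⟩ := kakutani_kodaira_subgroup W hW
  refine ⟨N, hNn, hNc, hNW, ?_⟩
  have hbasis : (𝓝 (1 : G ⧸ N)).HasBasis (fun _ : ℕ => True)
      (fun n => ((↑) : G → G ⧸ N) '' (V n)) := by
    constructor
    intro t
    constructor
    · intro ht
      obtain ⟨t', ht', hto, h1⟩ := mem_nhds_iff.1 ht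
      obtain ⟨n, hn⟩ := hVO (((↑) : G → G ⧸ N) ⁻¹' t') (hto.preimage QuotientGroup.continuous_mk)
        (by
          intro x hx
          have : (x : G ⧸ N) = 1 := (QuotientGroup.eq_one_iff x).2 hx
          rw [mem_preimage, this]
          exact h1)
      exact ⟨n, trivial, (image_subset_iff.2 hn).trans ht'⟩
    · rintro ⟨n, -, hn⟩
      exact mem_of_superset (QuotientGroup.isOpenMap_coe.image_mem_nhds (hVn n)) hn
  have hcg : (𝓝 (1 : G ⧸ N)).IsCountablyGenerated := hbasis.isCountablyGenerated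
  haveI : IsClosed (N : Set G) := hNc.isClosed
  have hsc : SigmaCompactSpace (G ⧸ N) := by
    refine ⟨⟨fun n => ((↑) : G → G ⧸ N) '' (compactCovering G n), ?_, ?_⟩⟩
    · intro n
      exact (isCompact_compactCovering G n).image QuotientGroup.continuous_mk
    · rw [← image_iUnion, iUnion_compactCovering, image_univ]
      exact QuotientGroup.mk_surjective.range_eq
  letI : UniformSpace (G ⧸ N) := IsTopologicalGroup.rightUniformSpace (G ⧸ N)
  have hu : (uniformity (G ⧸ N)).IsCountablyGenerated := by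
    rw [uniformity_eq_comap_nhds_one']
    infer_instance
  letI : PseudoMetricSpace (G ⧸ N) := UniformSpace.pseudoMetricSpace (G ⧸ N)
  infer_instance


theorem null_right {G : Type*} [Group G] [TopologicalSpace G] [IsTopologicalGroup G]
    [LocallyCompactSpace G] [MeasurableSpace G] [BorelSpace G]
    (μ : Measure G) [μ.IsHaarMeasure] [μ.Regular] (g : G) {s : Set G} (hs : MeasurableSet s)
    (h0 : μ s = 0) : μ ((fun x => x * g) ⁻¹' s) = 0 := by
  have hreg : (Measure.map (fun x => x * g) μ).Regular :=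
    Measure.Regular.map (Homeomorph.mulRight g)
  have h1 := Measure.isMulLeftInvariant_eq_smul_of_regular (Measure.map (fun x => x * g) μ) μ
  have h2 : Measure.map (fun x => x * g) μ s = 0 := by
    rw [h1]; simp [h0]
  rwa [Measure.map_apply (by fun_prop) hs] at h2

theorem null_saturation {G Q : Type*} [Group G] [TopologicalSpace G] [IsTopologicalGroup G]
    [LocallyCompactSpace G] [T2Space G] [MeasurableSpace G] [BorelSpace G]
    (μ : Measure G) [μ.IsHaarMeasure] [μ.Regular]
    [Group Q] [TopologicalSpace Q] [SecondCountableTopology Q] (π : G →* Q)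
    (ho : IsOpenMap π) (hk : IsCompact (π.ker : Set G))
    {O O' : Set G} (hO : IsOpen O) (hO'm : MeasurableSet O')
    (hO' : ∀ x ∈ O', ∀ n ∈ π.ker, x * n ∈ O') (h0 : μ (O \ O') = 0) :
    μ (π ⁻¹' (π '' O) \ O') = 0 := by
  classical
  let N : Subgroup G := π.ker
  haveI : CompactSpace N := isCompact_iff_compactSpace.1 hk
  let ν : Measure N := Measure.haar
  -- index set: functions
  let I := {φ : C(G, ℝ) // HasCompactSupport φ ∧ 0 ≤ φ ∧ ∀ x, φ x ≠ 0 → x ∈ O}
  let V : I → Set G := fun φ => {x | φ.1 x ≠ 0}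
  have hVo : ∀ φ : I, IsOpen (V φ) := fun φ => isOpen_ne_fun φ.1.continuous continuous_const
  -- cover
  have hcover : ⋃ φ : I, V φ = O := by
    apply Subset.antisymm
    · exact iUnion_subset fun φ x hx => φ.2.2.2 x hx
    · intro x hx
      obtain ⟨f, hf1, hf0, hfc, hf01⟩ := exists_continuous_one_zero_of_isCompact
        (isCompact_singleton (x := x)) hO.isClosed_compl (by simpa using hx)
      refine mem_iUnion.2 ⟨⟨f, hfc, fun y => (hf01 y).1, ?_⟩, ?_⟩
      · intro y hy
        by_contra hyO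
        exact hy (hf0 hyO)
      · have : f x = 1 := hf1 rfl
        change f x ≠ 0
        rw [this]; norm_num
  obtain ⟨T, hTc, hT⟩ := TopologicalSpace.isOpen_iUnion_countable (fun φ : I => π '' (V φ))
    (fun φ => ho _ (hVo φ))
  have hPO : π '' O = ⋃ φ ∈ T, π '' (V φ) := by
    rw [hT, ← image_iUnion, hcover]
  have hsub : π ⁻¹' (π '' O) \ O' ⊆ ⋃ φ ∈ T, (π ⁻¹' (π '' (V φ)) \ O') := by
    intro x hx
    have h1 : π x ∈ π '' O := hx.1
    rw [hPO] at h1
    simp only [mem_iUnion] at h1 ⊢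
    obtain ⟨φ, hφ, h2⟩ := h1
    exact ⟨φ, hφ, h2, hx.2⟩
  refine measure_mono_null hsub ?_
  rw [measure_biUnion_null_iff hTc]
  intro φ _
  obtain ⟨φ, hφc, hφ0, hφO⟩ := φ
  -- the averaged function
  let ψ : G → ℝ := fun x => ∫ n : N, φ (x * n) ∂ν
  let F : G → N → ℝ := fun x n => φ (x * n)
  have hFc : Continuous F.uncurry := by
    change Continuous (fun p : G × N => φ (p.1 * p.2))
    fun_prop
  have hFs : HasCompactSupport F.uncurry := by
    have hKc : IsCompact ((tsupport φ * (N : Set G)⁻¹) ×ˢ (univ : Set N)) :=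
      (hφc.isCompact.mul hk.inv).prod isCompact_univ
    refine HasCompactSupport.intro hKc ?_
    rintro ⟨x, n⟩ hx
    by_contra hne
    apply hx
    refine ⟨?_, mem_univ _⟩
    refine ⟨x * n, subset_tsupport _ hne, (n : G)⁻¹, ?_, by simp⟩
    simp
  have hψc : Continuous ψ := by
    have := continuousOn_integral_of_compact_support (μ := ν) (s := (univ : Set G))
      (k := (univ : Set N)) isCompact_univ (f := F) hFc.continuousOn (by simp)
    rwa [continuousOn_univ] at this
  have hψs : HasCompactSupport ψ := by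
    refine HasCompactSupport.intro (hφc.isCompact.mul hk.inv) ?_
    intro x hx
    have : ∀ n : N, φ (x * n) = 0 := by
      intro n
      by_contra hne
      apply hx
      exact ⟨x * n, subset_tsupport _ hne, (n : G)⁻¹, by simp, by simp⟩
    simp [ψ, this]
  have hψ0 : 0 ≤ ψ := fun x => integral_nonneg fun n => hφ0 _
  have hψpos : ∀ x ∈ π ⁻¹' (π '' {x | φ x ≠ 0}), 0 < ψ x := by
    rintro x ⟨y, hy, hxy⟩
    have hn : x⁻¹ * y ∈ N := by
      change x⁻¹ * y ∈ π.ker
      rw [MonoidHom.mem_ker, map_mul, map_inv, hxy]; simp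
    have hc1 : Continuous (fun n : N => φ (x * n)) := by fun_prop
    exact hc1.integral_pos_of_hasCompactSupport_nonneg_nonzero
      (HasCompactSupport.of_compactSpace _) (fun n => hφ0 _)
      (x := ⟨x⁻¹ * y, hn⟩) (by simpa using hy)
  have hint : ∫ x in O'ᶜ, ψ x ∂μ = 0 := by
    have hsw := integral_integral_swap_of_hasCompactSupport hFc hFs (μ := μ.restrict O'ᶜ) (ν := ν)
    change ∫ x in O'ᶜ, (∫ n : N, F x n ∂ν) ∂μ = 0
    rw [hsw]
    have : ∀ n : N, ∫ x in O'ᶜ, F x n ∂μ = 0 := by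
      intro n
      apply integral_eq_zero_of_ae
      rw [Filter.EventuallyEq, ae_restrict_iff' hO'm.compl, ae_iff]
      have h1 := null_right μ (n : G) (hO.measurableSet.diff hO'm) h0
      refine measure_mono_null ?_ h1
      intro x hx
      simp only [mem_compl_iff, Classical.not_imp, mem_setOf_eq] at hx
      refine ⟨hφO _ hx.2, ?_⟩
      intro hxn
      apply hx.1
      have := hO' _ hxn (n : G)⁻¹ (N.inv_mem n.2)
      simpa using this
    simp [this]
  have hψi : Integrable ψ (μ.restrict O'ᶜ) :=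
    (hψc.integrable_of_hasCompactSupport hψs).restrict
  rw [integral_eq_zero_iff_of_nonneg hψ0 hψi, Filter.EventuallyEq, ae_restrict_iff' hO'm.compl,
    ae_iff] at hint
  refine measure_mono_null ?_ hint
  intro x hx
  simp only [mem_compl_iff, Classical.not_imp, mem_setOf_eq]
  exact ⟨hx.2, (hψpos x hx.1).ne'⟩


theorem unif_cont {G : Type*} [Group G] [TopologicalSpace G] [IsTopologicalGroup G]
    (φ : C(G, ℝ)) (hφ : HasCompactSupport φ) {ε : ℝ} (hε : 0 < ε) :
    ∃ W ∈ 𝓝 (1:G), ∀ v ∈ W, ∀ x, |φ (v * x) - φ x| < ε := by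
  have h := hφ.isCompact.eventually_forall_of_forall_eventually (x₀ := (1:G))
    (P := fun v x => |φ (v * x) - φ x| < ε) ?_
  · refine ⟨{v | ∀ y ∈ tsupport φ, |φ (v * y) - φ y| < ε} ∩
      {v | ∀ y ∈ tsupport φ, |φ (v * y) - φ y| < ε}⁻¹, inter_mem h (inv_mem_nhds_one G h), ?_⟩
    rintro v ⟨hv, hv'⟩ x
    by_cases hx : x ∈ tsupport φ
    · exact hv x hx
    · by_cases hx' : v * x ∈ tsupport φ
      · have := hv' (v * x) hx'
        rw [inv_mul_cancel_left, abs_sub_comm] at this
        exact this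
      · rw [image_eq_zero_of_notMem_tsupport hx, image_eq_zero_of_notMem_tsupport hx']
        simpa using hε
  · intro x _
    have hc : Continuous (fun z : G × G => |φ (z.1 * z.2) - φ z.2|) := by fun_prop
    have ht : Tendsto (fun z : G × G => |φ (z.1 * z.2) - φ z.2|) (𝓝 (1, x)) (𝓝 0) := by
      apply hc.tendsto'
      simp
    exact ht.eventually (gt_mem_nhds hε)

theorem exists_inner_functions {G : Type*} [TopologicalSpace G]
    [LocallyCompactSpace G] [T2Space G] [MeasurableSpace G] [BorelSpace G]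
    (μ : Measure G) [μ.Regular] {O : Set G} (hO : IsOpen O) (hOf : μ O ≠ ∞) :
    ∃ φ : ℕ → C(G, ℝ), (∀ n, HasCompactSupport (φ n)) ∧ (∀ n x, φ n x ≠ 0 → x ∈ O) ∧
      μ (O \ ⋃ n, {x | φ n x ≠ 0}) = 0 := by
  have h1 : ∀ n : ℕ, ∃ φ : C(G, ℝ), HasCompactSupport φ ∧ (∀ x, φ x ≠ 0 → x ∈ O) ∧
      μ (O \ {x | φ x ≠ 0}) ≤ (n : ℝ≥0∞)⁻¹ := by
    intro n
    by_cases hn : n = 0
    · refine ⟨0, HasCompactSupport.zero, by simp, ?_⟩
      simp [hn]
    obtain ⟨K, hKO, hKc, hK⟩ := hO.measurableSet.exists_isCompact_lt_add hOf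
      (ε := (n : ℝ≥0∞)⁻¹) (by simp)
    obtain ⟨f, hf1, hf0, hfc, hf01⟩ := exists_continuous_one_zero_of_isCompact
        hKc hO.isClosed_compl (disjoint_compl_right_iff_subset.2 hKO)
    refine ⟨f, hfc, ?_, ?_⟩
    · intro y hy
      by_contra hyO
      exact hy (hf0 hyO)
    · have hsub : O \ {x | f x ≠ 0} ⊆ O \ K := by
        refine diff_subset_diff_right ?_
        intro x hx
        have : f x = 1 := hf1 hx
        change f x ≠ 0
        rw [this]; norm_num
      refine (measure_mono hsub).trans ?_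
      rw [measure_diff hKO hKc.measurableSet.nullMeasurableSet hKc.measure_lt_top.ne]
      exact tsub_le_iff_left.2 hK.le
  choose φ hφc hφO hφ using h1
  refine ⟨φ, hφc, hφO, ?_⟩
  have h2 : ∀ n : ℕ, μ (O \ ⋃ n, {x | φ n x ≠ 0}) ≤ (n : ℝ≥0∞)⁻¹ := by
    intro n
    refine (measure_mono ?_).trans (hφ n)
    exact diff_subset_diff_right (subset_iUnion (fun n => {x | φ n x ≠ 0}) n)
  exact le_antisymm (ge_of_tendsto' ENNReal.tendsto_inv_nat_nhds_zero h2) bot_le

def Pack {G : Type*} [Group G] [MeasurableSpace G] (E U : Set G) : Prop :=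
  ∃ (A : ℕ → Set G) (g : ℕ → G), (∀ i, MeasurableSet (A i)) ∧ Pairwise (Function.onFun Disjoint A) ∧
    (⋃ i, A i) = E ∧ Pairwise (Function.onFun Disjoint fun i => g i • A i) ∧ ∀ i, g i • A i ⊆ U

theorem Pack.pull {G Q : Type*} [Group G] [MeasurableSpace G] [Group Q] [MeasurableSpace Q]
    (π : G →* Q) (hπm : Measurable π) (hs : Function.Surjective π) {E U : Set G} {E' U' : Set Q}
    (hE : MeasurableSet E) (hEE' : E ⊆ π ⁻¹' E') (hU : π ⁻¹' U' ⊆ U) (h : Pack E' U') :
    Pack E U := by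
  obtain ⟨A, g, hAm, hAd, hAU, hgd, hgU⟩ := h
  choose γ hγ using fun i => hs (g i)
  have himg : ∀ i, γ i • (E ∩ π ⁻¹' (A i)) ⊆ π ⁻¹' (g i • A i) := by
    rintro i _ ⟨x, hx, rfl⟩
    refine ⟨π x, hx.2, ?_⟩
    simp [hγ]
  refine ⟨fun i => E ∩ π ⁻¹' (A i), γ, fun i => hE.inter (hπm (hAm i)), ?_, ?_, ?_, ?_⟩
  · intro i j hij
    exact ((hAd hij).preimage π).mono inter_subset_right inter_subset_right
  · rw [← inter_iUnion, ← preimage_iUnion, hAU]
    exact inter_eq_left.2 hEE'
  · intro i j hij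
    exact ((hgd hij).preimage π).mono (himg i) (himg j)
  · intro i
    exact (himg i).trans ((preimage_mono (hgU i)).trans hU)

/-- limit of partially invariant finitely additive measures -/
theorem exists_invariant_limit {G : Type*} [Group G] [MeasurableSpace G]
    {K U : Set G} (S0 : Finset G)
    (h : ∀ S : Finset G, S0 ⊆ S → ∃ m : Set G → ℝ≥0∞,
      (∀ A B, MeasurableSet A → MeasurableSet B → Disjoint A B → m (A ∪ B) = m A + m B) ∧
      (∀ g ∈ S, ∀ A, MeasurableSet A → m (g • A) = m A) ∧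
      (∀ A B, MeasurableSet A → MeasurableSet B → A ⊆ B → m A ≤ m B) ∧ m U = 1 ∧ 1 ≤ m K) :
    ∃ m : Set G → ℝ≥0∞,
      (∀ A B, MeasurableSet A → MeasurableSet B → Disjoint A B → m (A ∪ B) = m A + m B) ∧
      (∀ g : G, ∀ A, MeasurableSet A → m (g • A) = m A) ∧
      (∀ A B, MeasurableSet A → MeasurableSet B → A ⊆ B → m A ≤ m B) ∧ m U = 1 ∧ 1 ≤ m K := by
  classical
  choose! m hadd hinv hmono hU hK using h
  let 𝒰 : Ultrafilter (Finset G) := Ultrafilter.of atTop
  have h𝒰 : (𝒰 : Filter (Finset G)) ≤ atTop := Ultrafilter.of_le _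
  have hev : ∀ᶠ S in (𝒰 : Filter (Finset G)), S0 ⊆ S := h𝒰 (eventually_ge_atTop S0)
  let M : Set G → ℝ≥0∞ := fun A => (𝒰.map (fun S => m S A)).lim
  have hM : ∀ A, Tendsto (fun S => m S A) 𝒰 (𝓝 (M A)) := fun A =>
    Ultrafilter.le_nhds_lim (𝒰.map (fun S => m S A))
  refine ⟨M, ?_, ?_, ?_, ?_, ?_⟩
  · intro A B hA hB hAB
    refine tendsto_nhds_unique (hM (A ∪ B)) (((hM A).add (hM B)).congr' ?_)
    filter_upwards [hev] with S hS
    exact (hadd S hS A B hA hB hAB).symm
  · intro g A hA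
    refine tendsto_nhds_unique (hM (g • A)) ((hM A).congr' ?_)
    have hg : ∀ᶠ S in (𝒰 : Filter (Finset G)), ({g} : Finset G) ⊆ S :=
      h𝒰 (eventually_ge_atTop ({g} : Finset G))
    filter_upwards [hev, hg] with S hS hgS
    exact (hinv S hS g (hgS (Finset.mem_singleton_self g)) A hA).symm
  · intro A B hA hB hAB
    refine le_of_tendsto_of_tendsto (hM A) (hM B) ?_
    filter_upwards [hev] with S hS
    exact hmono S hS A B hA hB hAB
  · refine tendsto_nhds_unique (hM U) (tendsto_const_nhds.congr' ?_)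
    filter_upwards [hev] with S hS
    exact (hU S hS).symm
  · refine ge_of_tendsto (hM K) ?_
    filter_upwards [hev] with S hS
    exact hK S hS

theorem contradiction_of_content {G : Type*} [Group G] [TopologicalSpace G] [IsTopologicalGroup G]
    [LocallyCompactSpace G] [T2Space G] [MeasurableSpace G] [BorelSpace G]
    (μ : Measure G) [μ.IsHaarMeasure] [μ.Regular] {K U : Set G} (hK : IsCompact K)
    (hU : IsOpen U) (hne : U.Nonempty) (h : μ K < μ U)
    (m : Set G → ℝ≥0∞)
    (hadd : ∀ A B, MeasurableSet A → MeasurableSet B → Disjoint A B → m (A ∪ B) = m A + m B)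
    (hinv : ∀ g : G, ∀ A, MeasurableSet A → m (g • A) = m A)
    (hmono : ∀ A B, MeasurableSet A → MeasurableSet B → A ⊆ B → m A ≤ m B)
    (hmU : m U = 1) (hmK : 1 ≤ m K) : False := by
  classical
  have hsub : ∀ A B, MeasurableSet A → MeasurableSet B → m (A ∪ B) ≤ m A + m B := by
    intro A B hA hB
    have : A ∪ B = A ∪ (B \ A) := by simp
    rw [this, hadd A (B \ A) hA (hB.diff hA) disjoint_sdiff_right]
    gcongr
    exact hmono _ _ (hB.diff hA) hB sdiff_subset
  have hem : m ∅ ≠ ∞ := by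
    have := hmono ∅ U MeasurableSet.empty hU.measurableSet (empty_subset _)
    rw [hmU] at this
    exact (this.trans_lt ENNReal.one_lt_top).ne
  have hfin : ∀ t : Finset G, m (⋃ g ∈ t, (g * ·) ⁻¹' U) ≠ ∞ := by
    intro t
    induction t using Finset.induction_on with
    | empty => simpa using hem
    | insert a t ha ih =>
      rw [Finset.set_biUnion_insert]
      have h1 : MeasurableSet ((a * ·) ⁻¹' U) := (hU.preimage (by fun_prop)).measurableSet
      have h2 : MeasurableSet (⋃ g ∈ t, (g * ·) ⁻¹' U) :=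
        (isOpen_biUnion fun g _ => hU.preimage (by fun_prop)).measurableSet
      refine ((hsub _ _ h1 h2).trans_lt ?_).ne
      refine ENNReal.add_lt_top.2 ⟨?_, lt_top_iff_ne_top.2 ih⟩
      have h3 : (a * ·) ⁻¹' U = a⁻¹ • U := by
        ext x
        rw [mem_smul_set_iff_inv_smul_mem]
        simp
      rw [h3, hinv _ _ hU.measurableSet, hmU]
      exact ENNReal.one_lt_top
  have hfinK : ∀ C : Set G, IsCompact C → m C ≠ ∞ := by
    intro C hC
    obtain ⟨t, ht⟩ := compact_covered_by_mul_left_translates hC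
      (by rwa [hU.interior_eq] : (interior U).Nonempty)
    have h2 : MeasurableSet (⋃ g ∈ t, (g * ·) ⁻¹' U) :=
        (isOpen_biUnion fun g _ => hU.preimage (by fun_prop)).measurableSet
    exact ((hmono _ _ hC.measurableSet h2 ht).trans_lt (lt_top_iff_ne_top.2 (hfin t))).ne
  let κ : Content G :=
    { toFun := fun C => (m C).toNNReal
      mono' := fun C D hCD => ENNReal.toNNReal_mono (hfinK _ D.isCompact)
        (hmono _ _ C.isCompact.measurableSet D.isCompact.measurableSet hCD)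
      sup_disjoint' := fun C D hCD _ _ => by
        rw [TopologicalSpace.Compacts.coe_sup, hadd _ _ C.isCompact.measurableSet
          D.isCompact.measurableSet hCD,
          ENNReal.toNNReal_add (hfinK _ C.isCompact) (hfinK _ D.isCompact)]
      sup_le' := fun C D => by
        rw [TopologicalSpace.Compacts.coe_sup,
          ← ENNReal.toNNReal_add (hfinK _ C.isCompact) (hfinK _ D.isCompact)]
        exact ENNReal.toNNReal_mono
          (ENNReal.add_ne_top.2 ⟨hfinK _ C.isCompact, hfinK _ D.isCompact⟩)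
          (hsub _ _ C.isCompact.measurableSet D.isCompact.measurableSet) }
  have hκ : ∀ C : TopologicalSpace.Compacts G, κ C = m C := fun C =>
    ENNReal.coe_toNNReal (hfinK _ C.isCompact)
  have hκinv : ∀ (g : G) {C : TopologicalSpace.Compacts G},
      κ (C.map _ <| continuous_const_mul g) = κ C := by
    intro g C
    rw [hκ, hκ]
    exact hinv g _ C.isCompact.measurableSet
  let ν : Measure G := κ.measure
  haveI : ν.IsMulLeftInvariant := by
    refine ⟨fun g => ?_⟩
    ext s hs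
    rw [Measure.map_apply (by fun_prop) hs]
    have hs' : MeasurableSet ((g * ·) ⁻¹' s) := measurable_const_mul g hs
    change κ.measure _ = κ.measure _
    rw [κ.measure_apply hs, κ.measure_apply hs']
    exact κ.is_mul_left_invariant_outerMeasure hκinv g s
  have h1 : ν = Measure.haarScalarFactor ν μ • μ := Measure.isMulLeftInvariant_eq_smul_of_regular ν μ
  set c := Measure.haarScalarFactor ν μ with hc
  have hνK : 1 ≤ ν K := by
    refine hmK.trans ?_
    have := κ.le_outerMeasure_compacts ⟨K, hK⟩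
    rw [hκ] at this
    change m K ≤ κ.measure K
    rw [κ.measure_apply hK.measurableSet]
    exact this
  have hνU : ν U ≤ 1 := by
    change κ.measure U ≤ 1
    rw [κ.measure_apply hU.measurableSet, κ.outerMeasure_of_isOpen U hU]
    refine iSup₂_le fun C hC => ?_
    rw [hκ, ← hmU]
    exact hmono _ _ C.isCompact.measurableSet hU.measurableSet hC
  have h2 : ν K = c * μ K := by
    rw [h1, Measure.smul_apply]; rfl
  have h3 : ν U = c * μ U := by
    rw [h1, Measure.smul_apply]; rfl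
  have hc0 : (c : ℝ≥0∞) ≠ 0 := by
    intro h0
    rw [h2, h0, zero_mul] at hνK
    exact absurd hνK (by simp)
  have h4 : (c : ℝ≥0∞) * μ K < c * μ U :=
    (ENNReal.mul_lt_mul_iff_right hc0 ENNReal.coe_ne_top).2 h
  rw [← h2, ← h3] at h4
  exact absurd (hνK.trans_lt h4) (not_lt.2 hνU)

theorem countable_closure {G : Type*} [Group G] (S : Finset G) :
    Countable (Subgroup.closure (S : Set G)) := by
  have h1 : ((Subgroup.closure (S : Set G)).toSubmonoid : Set G).Countable := by
    rw [Subgroup.closure_toSubmonoid, Submonoid.closure_eq_mrange, MonoidHom.coe_mrange]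
    have : Countable ((S : Set G) ∪ (S : Set G)⁻¹ : Set G) :=
      (S.countable_toSet.union (by
        rw [← image_inv_eq_inv]
        exact S.countable_toSet.image _)).to_subtype
    have : Countable (FreeMonoid ((S : Set G) ∪ (S : Set G)⁻¹ : Set G)) :=
      inferInstanceAs (Countable (List ((S : Set G) ∪ (S : Set G)⁻¹ : Set G)))
    exact countable_range _
  exact h1.to_subtype

theorem pack_of_isCompact {G : Type*} [Group G] [TopologicalSpace G] [IsTopologicalGroup G]
    [LocallyCompactSpace G] [T2Space G] [MeasurableSpace G] [BorelSpace G]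
    (μ : Measure G) [μ.IsHaarMeasure] [μ.Regular] {K U : Set G} (hK : IsCompact K)
    (hU : IsOpen U) (h : μ K < μ U) : Pack K U := by
  classical
  have hne : U.Nonempty := by
    rw [nonempty_iff_ne_empty]
    rintro rfl
    simp at h
  by_contra hnot
  obtain ⟨t, ht⟩ := compact_covered_by_mul_left_translates hK
      (by rwa [hU.interior_eq] : (interior U).Nonempty)
  have key : ∀ S : Finset G, t ⊆ S → ∃ m : Set G → ℝ≥0∞,
      (∀ A B, MeasurableSet A → MeasurableSet B → Disjoint A B → m (A ∪ B) = m A + m B) ∧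
      (∀ g ∈ S, ∀ A, MeasurableSet A → m (g • A) = m A) ∧
      (∀ A B, MeasurableSet A → MeasurableSet B → A ⊆ B → m A ≤ m B) ∧ m U = 1 ∧ 1 ≤ m K := by
    intro S hS
    let Γ : Subgroup G := Subgroup.closure (S : Set G)
    have hmemS : ∀ g ∈ S, g ∈ Γ := fun g hg => Subgroup.subset_closure hg
    have hcount : Countable Γ := by
      exact countable_closure S
    have hcov : ∃ F : Finset Γ, K ⊆ ⋃ γ ∈ F, γ • U := by
      refine ⟨t.attach.image (fun g : {x // x ∈ t} =>
        (⟨(g.1)⁻¹, Γ.inv_mem (hmemS g.1 (hS g.2))⟩ : Γ)), ?_⟩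
      intro x hx
      have hx' := ht hx
      simp only [mem_iUnion] at hx' ⊢
      obtain ⟨g, hg, hgx⟩ := hx'
      refine ⟨⟨g⁻¹, Γ.inv_mem (hmemS g (hS hg))⟩, ?_, ?_⟩
      · rw [Finset.mem_image]
        exact ⟨⟨g, hg⟩, Finset.mem_attach _ _, rfl⟩
      · refine ⟨g * x, hgx, ?_⟩
        change g⁻¹ * (g * x) = x
        group
    rcases dichotomy (Γ := Γ) (X := G) (fun γ => measurable_const_mul (γ : G)) hK.measurableSet
      hU.measurableSet hcov with h1 | h1
    · obtain ⟨A, g, h1, h2, h3, h4, h5⟩ := h1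
      exact absurd ⟨A, fun i => (g i : G), h1, h2, h3, h4, h5⟩ hnot
    · obtain ⟨m, h1, h2, h3, h4, h5⟩ := h1
      exact ⟨m, h1, fun g hg A hA => h2 ⟨g, hmemS g hg⟩ A hA, h3, h4, h5⟩
  obtain ⟨m, h1, h2, h3, h4, h5⟩ := exists_invariant_limit t key
  exact contradiction_of_content μ hK hU hne h m h1 h2 h3 h4 h5

theorem Pack.mono {G : Type*} [Group G] [MeasurableSpace G] {E U V : Set G} (h : Pack E U)
    (hUV : U ⊆ V) : Pack E V := by
  obtain ⟨A, g, h1, h2, h3, h4, h5⟩ := h
  exact ⟨A, g, h1, h2, h3, h4, fun i => (h5 i).trans hUV⟩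

theorem Pack.empty {G : Type*} [Group G] [MeasurableSpace G] (U : Set G) : Pack ∅ U :=
  ⟨fun _ => ∅, fun _ => 1, fun _ => MeasurableSet.empty, fun i j _ => by simp [Function.onFun],
    by simp, fun i j _ => by simp [Function.onFun], fun i => by simp⟩

theorem Pack.translate {G : Type*} [Group G] [MeasurableSpace G] [MeasurableMul G]
    {E U : Set G} (h : Pack E U) (a b : G) : Pack (a • E) (b • U) := by
  obtain ⟨A, g, h1, h2, h3, h4, h5⟩ := h
  have he : ∀ i, (b * g i * a⁻¹) • (a • A i) = b • (g i • A i) := by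
    intro i
    rw [smul_smul, smul_smul]
    congr 1
    group
  refine ⟨fun i => a • A i, fun i => b * g i * a⁻¹, fun i => (h1 i).const_smul a, ?_, ?_, ?_, ?_⟩
  · intro i j hij
    exact (disjoint_smul_set (a := a)).2 (h2 hij)
  · rw [← smul_set_iUnion, h3]
  · intro i j hij
    simp only [Function.onFun, he]
    exact (disjoint_smul_set (a := b)).2 (h4 hij)
  · intro i
    simp only [he]
    exact smul_set_mono (h5 i)

theorem Pack.iUnion {G : Type*} [Group G] [MeasurableSpace G] {E U : ℕ → Set G}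
    (h : ∀ i, Pack (E i) (U i)) (hE : Pairwise (Function.onFun Disjoint E))
    (hU : Pairwise (Function.onFun Disjoint U)) : Pack (⋃ i, E i) (⋃ i, U i) := by
  choose A g h1 h2 h3 h4 h5 using h
  have hAE : ∀ i j, A i j ⊆ E i := fun i j => by
    rw [← h3 i]; exact subset_iUnion _ j
  let e : ℕ ≃ ℕ × ℕ := Nat.pairEquiv.symm
  refine ⟨fun n => A (e n).1 (e n).2, fun n => g (e n).1 (e n).2, fun n => h1 _ _, ?_, ?_, ?_, ?_⟩
  · intro m n hmn
    change Disjoint (A (e m).1 (e m).2) (A (e n).1 (e n).2)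
    by_cases h : (e m).1 = (e n).1
    · have h' : (e m).2 ≠ (e n).2 := fun h' => hmn (e.injective (Prod.ext h h'))
      rw [h]
      exact h2 _ h'
    · exact (hE h).mono (hAE _ _) (hAE _ _)
  · ext x
    simp only [mem_iUnion]
    constructor
    · rintro ⟨n, hn⟩
      exact ⟨_, hAE _ _ hn⟩
    · rintro ⟨i, hi⟩
      rw [← h3 i, mem_iUnion] at hi
      obtain ⟨j, hj⟩ := hi
      refine ⟨e.symm (i, j), ?_⟩
      simpa using hj
  · intro m n hmn
    change Disjoint (g (e m).1 (e m).2 • A (e m).1 (e m).2) (g (e n).1 (e n).2 • A (e n).1 (e n).2)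
    by_cases h : (e m).1 = (e n).1
    · have h' : (e m).2 ≠ (e n).2 := fun h' => hmn (e.injective (Prod.ext h h'))
      rw [h]
      exact h4 _ h'
    · exact (hU h).mono (h5 _ _) (h5 _ _)
  · intro n
    exact (h5 _ _).trans (subset_iUnion U _)

theorem Pack.push {G H : Type*} [Group G] [MeasurableSpace G] [Group H] [MeasurableSpace H]
    (ι : H →* G) (hι : MeasurableEmbedding ι) {E U : Set H} (h : Pack E U) :
    Pack (ι '' E) (ι '' U) := by
  obtain ⟨A, g, h1, h2, h3, h4, h5⟩ := h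
  have he : ∀ i, ι (g i) • (ι '' A i) = ι '' (g i • A i) := by
    intro i
    ext x
    simp only [mem_smul_set, mem_image]
    constructor
    · rintro ⟨_, ⟨y, hy, rfl⟩, rfl⟩
      exact ⟨g i • y, ⟨y, hy, rfl⟩, by simp⟩
    · rintro ⟨_, ⟨y, hy, rfl⟩, rfl⟩
      exact ⟨ι y, ⟨y, hy, rfl⟩, by simp⟩
  refine ⟨fun i => ι '' A i, fun i => ι (g i), fun i => hι.measurableSet_image.2 (h1 i),
    ?_, ?_, ?_, ?_⟩
  · intro i j hij
    exact (disjoint_image_iff hι.injective).2 (h2 hij)
  · rw [← image_iUnion, h3]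
  · intro i j hij
    simp only [Function.onFun, he]
    exact (disjoint_image_iff hι.injective).2 (h4 hij)
  · intro i
    simp only [he]
    exact image_mono (h5 i)

theorem exists_disjoint_open {G : Type*} [TopologicalSpace G] [T2Space G] {U : Set G}
    (hU : IsOpen U) (hinf : U.Infinite) : ∃ V : ℕ → Set G, (∀ n, IsOpen (V n)) ∧
      (∀ n, (V n).Nonempty) ∧ (∀ n, V n ⊆ U) ∧ Pairwise (Function.onFun Disjoint V) := by
  haveI : Infinite U := hinf.to_subtype
  obtain ⟨V, h1, h2, h3⟩ := exists_seq_infinite_isOpen_pairwise_disjoint U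
  refine ⟨fun n => Subtype.val '' V n, fun n => hU.isOpenMap_subtype_val _ (h2 n),
    fun n => (h1 n).nonempty.image _, fun n => ?_, ?_⟩
  · rintro _ ⟨x, -, rfl⟩
    exact x.2
  · intro i j hij
    exact (disjoint_image_iff Subtype.val_injective).2 (h3 hij)

theorem infinite_of_open {G : Type*} [Group G] [TopologicalSpace G] [IsTopologicalGroup G]
    [T2Space G] (hnd : ¬ DiscreteTopology G) {U : Set G} (hU : IsOpen U) (hne : U.Nonempty) :
    U.Infinite := by
  intro hfin
  apply hnd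
  obtain ⟨u, hu⟩ := hne
  have h1 : IsOpen ({u} : Set G) := by
    have : ({u} : Set G) = U \ (U \ {u}) := by
      ext x
      simp only [mem_singleton_iff, mem_diff, not_and, not_not]
      constructor
      · rintro rfl
        exact ⟨hu, fun _ => rfl⟩
      · rintro ⟨h, h'⟩
        exact h' h
    rw [this]
    exact hU.sdiff (hfin.subset diff_subset).isClosed
  rw [discreteTopology_iff_isOpen_singleton_one]
  have h2 := h1.smul u⁻¹
  simpa using h2

theorem Pack.subset {G : Type*} [Group G] [MeasurableSpace G] {E K U : Set G} (h : Pack K U)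
    (hE : MeasurableSet E) (hEK : E ⊆ K) : Pack E U := by
  obtain ⟨A, g, h1, h2, h3, h4, h5⟩ := h
  refine ⟨fun i => E ∩ A i, g, fun i => hE.inter (h1 i), ?_, ?_, ?_, ?_⟩
  · intro i j hij
    exact (h2 hij).mono inter_subset_right inter_subset_right
  · rw [← inter_iUnion, h3]
    exact inter_eq_left.2 hEK
  · intro i j hij
    exact (h4 hij).mono (smul_set_mono inter_subset_right) (smul_set_mono inter_subset_right)
  · intro i
    exact (smul_set_mono inter_subset_right).trans (h5 i)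

/-- covering an open set of small measure by compact sets with prescribed measure bounds -/
theorem exists_compact_cover {G : Type*} [TopologicalSpace G] [LocallyCompactSpace G] [T2Space G]
    [SecondCountableTopology G] [MeasurableSpace G] [BorelSpace G] (μ : Measure G)
    {O : Set G} (hO : IsOpen O) (c : ℕ → ℝ≥0∞) (hc : ∀ n, 0 < c n) (hOc : μ O < c 0)
    (hOf : μ O ≠ ∞) :
    ∃ K : ℕ → Set G, (∀ n, IsCompact (K n)) ∧ (∀ n, μ (K n) < c n) ∧ O ⊆ ⋃ n, K n := by
  classical
  haveI : LocallyCompactSpace O := hO.locallyCompactSpace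
  let C : CompactExhaustion O := CompactExhaustion.choice O
  let C' : ℕ → Set G := fun n => Subtype.val '' C n
  let D : ℕ → Set G := fun n => Subtype.val '' interior (C n)
  have hC'c : ∀ n, IsCompact (C' n) := fun n => (C.isCompact n).image continuous_subtype_val
  have hDo : ∀ n, IsOpen (D n) := fun n => hO.isOpenMap_subtype_val _ isOpen_interior
  have hDC : ∀ n, D n ⊆ C' n := fun n => image_mono interior_subset
  have hCD : ∀ n, C' n ⊆ D (n+1) := fun n => image_mono (C.subset_interior_succ n)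
  have hC'O : ∀ n, C' n ⊆ O := by
    rintro n _ ⟨x, -, rfl⟩
    exact x.2
  have hUC : O ⊆ ⋃ n, C' n := by
    intro x hx
    obtain ⟨n, hn⟩ := C.exists_mem ⟨x, hx⟩
    exact mem_iUnion.2 ⟨n, ⟨x, hx⟩, hn, rfl⟩
  have hDmono : Monotone D := by
    intro m n hmn
    exact image_mono (interior_mono (C.subset hmn))
  have hC'mono : Monotone C' := by
    intro m n hmn
    exact image_mono (C.subset hmn)
  have hUD : ⋂ n, (O \ D n) = ∅ := by
    rw [eq_empty_iff_forall_notMem]
    intro x hx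
    rw [mem_iInter] at hx
    obtain ⟨n, hn⟩ := mem_iUnion.1 (hUC (hx 0).1)
    exact (hx (n+1)).2 (hCD n hn)
  have htend : Tendsto (fun n => μ (O \ D n)) atTop (𝓝 0) := by
    have := tendsto_measure_iInter_atTop (μ := μ) (s := fun n => O \ D n)
      (fun n => (hO.measurableSet.diff (hDo n).measurableSet).nullMeasurableSet)
      (fun m n hmn => sdiff_subset_sdiff_right (hDmono hmn))
      ⟨0, ((measure_mono sdiff_subset).trans_lt (lt_top_iff_ne_top.2 hOf)).ne⟩
    rw [hUD, measure_empty] at this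
    exact this
  obtain ⟨k, hk, hkc⟩ := extraction_forall_of_eventually'
    (P := fun n m => μ (O \ D m) < c (n+1)) (fun n => by
      have := htend.eventually (gt_mem_nhds (hc (n+1)))
      exact eventually_atTop.1 this)
  refine ⟨fun n => match n with
    | 0 => C' (k 0)
    | n+1 => C' (k (n+1)) \ D (k n), ?_, ?_, ?_⟩
  · intro n
    cases n with
    | zero => exact hC'c _
    | succ n => exact (hC'c _).diff (hDo _)
  · intro n
    cases n with
    | zero => exact (measure_mono (hC'O _)).trans_lt hOc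
    | succ n => exact (measure_mono (sdiff_subset_sdiff_left (hC'O _))).trans_lt (hkc n)
  · intro x hx
    obtain ⟨m, hm⟩ := mem_iUnion.1 (hUC hx)
    have hex : ∃ n, x ∈ C' (k n) := ⟨m, hC'mono (hk.le_apply) hm⟩
    have hfind := Nat.find_spec hex
    rw [mem_iUnion]
    refine ⟨Nat.find hex, ?_⟩
    cases hn : Nat.find hex with
    | zero =>
      rw [hn] at hfind
      exact hfind
    | succ n =>
      rw [hn] at hfind
      refine ⟨hfind, fun hxD => ?_⟩
      exact Nat.find_min hex (m := n) (by omega) (hDC _ hxD)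

theorem pack_null_sc {Q : Type*} [Group Q] [TopologicalSpace Q] [IsTopologicalGroup Q]
    [LocallyCompactSpace Q] [T2Space Q] [SecondCountableTopology Q] [MeasurableSpace Q]
    [BorelSpace Q] (μ : Measure Q) [μ.IsHaarMeasure] {E U : Set Q} (hE : MeasurableSet E)
    (h0 : μ E = 0) (hU : IsOpen U) (hne : U.Nonempty) : Pack E U := by
  classical
  by_cases hd : DiscreteTopology Q
  · have : E = ∅ := by
      by_contra hE0
      have hEo : IsOpen E := isOpen_discrete E
      have := hEo.measure_pos μ (nonempty_iff_ne_empty.2 hE0)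
      exact this.ne' h0
    rw [this]
    exact Pack.empty U
  obtain ⟨V, hVo, hVne, hVU, hVd⟩ := exists_disjoint_open hU (infinite_of_open hd hU hne)
  haveI : μ.Regular := inferInstance
  obtain ⟨O, hEO, hO, hO1⟩ := E.exists_isOpen_lt_of_lt (μ := μ) (min 1 (μ (V 0))) (by
    rw [h0]
    exact lt_min one_pos ((hVo 0).measure_pos μ (hVne 0)))
  obtain ⟨K, hKc, hKμ, hOK⟩ := exists_compact_cover μ hO (fun n => μ (V n))
    (fun n => (hVo n).measure_pos μ (hVne n)) (hO1.trans_le (min_le_right _ _))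
    ((hO1.trans_le (min_le_left _ _)).trans ENNReal.one_lt_top).ne
  let En : ℕ → Set Q := fun n => E ∩ disjointed K n
  have hEn : ⋃ n, En n = E := by
    rw [← inter_iUnion, iUnion_disjointed]
    exact inter_eq_left.2 (hEO.trans hOK)
  rw [← hEn]
  refine (Pack.iUnion (E := En) (U := V) ?_ ?_ hVd).mono (iUnion_subset hVU)
  · intro n
    refine (pack_of_isCompact μ (hKc n) (hVo n) (hKμ n)).subset
      (hE.inter (MeasurableSet.disjointed (fun n => (hKc n).measurableSet) n)) ?_
    exact inter_subset_right.trans (disjointed_subset K n)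
  · intro i j hij
    exact (disjoint_disjointed K hij).mono inter_subset_right inter_subset_right

theorem pack_quot {G Q : Type*} [Group G] [TopologicalSpace G] [IsTopologicalGroup G]
    [LocallyCompactSpace G] [T2Space G] [MeasurableSpace G] [BorelSpace G]
    (μ : Measure G) [μ.IsHaarMeasure] [μ.Regular]
    [Group Q] [TopologicalSpace Q] [IsTopologicalGroup Q]
    [LocallyCompactSpace Q] [T2Space Q] [SecondCountableTopology Q] (π : G →* Q)
    (hc : Continuous π) (hs : Function.Surjective π)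
    (ho : IsOpenMap π) (hcl : IsClosedMap π) (hk : IsCompact (π.ker : Set G))
    {E U : Set G} (hE : MeasurableSet E) (O : ℕ → Set G) (hO : ∀ k, IsOpen (O k))
    (hEO : ∀ k, E ⊆ O k) (hμO : ∀ k : ℕ, μ (O k) ≤ (k : ℝ≥0∞)⁻¹)
    (φ : ℕ → ℕ → C(G, ℝ))
    (hφ0 : ∀ k, μ (O k \ ⋃ j, {x | φ k j x ≠ 0}) = 0)
    (hφO : ∀ k j x, φ k j x ≠ 0 → x ∈ O k)
    (hinv : ∀ k j x, ∀ n ∈ π.ker, φ k j (x * n) = φ k j x)
    (hU : IsOpen U) (u : G) (huN : ∀ n ∈ π.ker, u * n ∈ U) : Pack E U := by
  letI : MeasurableSpace Q := borel Q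
  haveI : BorelSpace Q := ⟨rfl⟩
  have hfib : ∀ q : Q, IsCompact (π ⁻¹' {q}) := by
    intro q
    obtain ⟨x, rfl⟩ := hs q
    have : π ⁻¹' {π x} = x • (π.ker : Set G) := by
      ext y
      rw [mem_smul_set_iff_inv_smul_mem]
      simp only [mem_preimage, mem_singleton_iff, smul_eq_mul, SetLike.mem_coe, MonoidHom.mem_ker,
        map_mul, map_inv]
      rw [inv_mul_eq_one, eq_comm]
    rw [this]
    exact hk.smul x
  have hprop : IsProperMap π :=
    isProperMap_iff_isClosedMap_and_compact_fibers.2 ⟨hc, hcl, fun {y} => hfib y⟩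
  have hcc : Tendsto π (cocompact G) (cocompact Q) :=
    (isProperMap_iff_tendsto_cocompact.1 hprop).2
  haveI : (Measure.map π μ).IsHaarMeasure := Measure.isHaarMeasure_map μ π hc hs hcc
  have hπm : Measurable π := hc.measurable
  let E' : Set Q := ⋂ k, π '' (O k)
  have hE'm : MeasurableSet E' := MeasurableSet.iInter fun k => (ho _ (hO k)).measurableSet
  have hμk : ∀ k : ℕ, μ (π ⁻¹' (π '' (O k))) ≤ (k : ℝ≥0∞)⁻¹ := by
    intro k
    have hO'o : IsOpen (⋃ j, {x | φ k j x ≠ 0}) :=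
      isOpen_iUnion fun j => isOpen_ne_fun (φ k j).continuous continuous_const
    have h1 := null_saturation μ π ho hk (hO k) (O' := ⋃ j, {x | φ k j x ≠ 0}) hO'o.measurableSet
      (by
        intro x hx n hn
        obtain ⟨j, hj⟩ := mem_iUnion.1 hx
        refine mem_iUnion.2 ⟨j, ?_⟩
        change φ k j (x * n) ≠ 0
        rw [hinv k j x n hn]
        exact hj) (hφ0 k)
    have hsub : (⋃ j, {x | φ k j x ≠ 0}) ⊆ O k := by
      refine iUnion_subset fun j x hx => hφO k j x hx
    calc μ (π ⁻¹' (π '' (O k))) ≤ μ ((π ⁻¹' (π '' (O k)) \ (⋃ j, {x | φ k j x ≠ 0})) ∪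
          (⋃ j, {x | φ k j x ≠ 0})) := by
          apply measure_mono
          intro x hx
          by_cases h : x ∈ ⋃ j, {x | φ k j x ≠ 0}
          · exact Or.inr h
          · exact Or.inl ⟨hx, h⟩
      _ ≤ μ (π ⁻¹' (π '' (O k)) \ (⋃ j, {x | φ k j x ≠ 0})) + μ (⋃ j, {x | φ k j x ≠ 0}) :=
          measure_union_le _ _
      _ ≤ 0 + μ (O k) := by
          gcongr
          exact h1.le
      _ ≤ _ := by simpa using hμO k
  have hE'0 : Measure.map π μ E' = 0 := by
    rw [Measure.map_apply hπm hE'm]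
    have h2 : ∀ k : ℕ, μ (π ⁻¹' E') ≤ (k : ℝ≥0∞)⁻¹ := by
      intro k
      refine (measure_mono (preimage_mono (iInter_subset _ k))).trans (hμk k)
    exact le_antisymm (ge_of_tendsto' ENNReal.tendsto_inv_nat_nhds_zero h2) bot_le
  let U' : Set Q := (π '' Uᶜ)ᶜ
  have hU'o : IsOpen U' := (hcl _ hU.isClosed_compl).isOpen_compl
  have hU'U : π ⁻¹' U' ⊆ U := by
    intro x hx
    by_contra hxU
    exact hx ⟨x, hxU, rfl⟩
  have hU'ne : U'.Nonempty := by
    refine ⟨π u, ?_⟩
    rintro ⟨y, hy, hyu⟩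
    apply hy
    have : u⁻¹ * y ∈ π.ker := by
      rw [MonoidHom.mem_ker, map_mul, map_inv, hyu]; simp
    simpa using huN _ this
  have hP : Pack E' U' := pack_null_sc (Measure.map π μ) hE'm hE'0 hU'o hU'ne
  refine hP.pull π hπm hs hE ?_ hU'U
  intro x hx
  refine mem_iInter.2 fun k => ⟨x, hEO k hx, rfl⟩

theorem pack_sigma {G : Type*} [Group G] [TopologicalSpace G] [IsTopologicalGroup G]
    [LocallyCompactSpace G] [T2Space G] [SigmaCompactSpace G] [MeasurableSpace G] [BorelSpace G]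
    (μ : Measure G) [μ.IsHaarMeasure] [μ.Regular] {E U : Set G} (hE : MeasurableSet E)
    (h0 : μ E = 0) (hU : IsOpen U) (hne : U.Nonempty) : Pack E U := by
  obtain ⟨u, hu⟩ := hne
  have h1 : ∀ k : ℕ, ∃ O, E ⊆ O ∧ IsOpen O ∧ μ O ≤ (k : ℝ≥0∞)⁻¹ ∧ μ O < 1 := by
    intro k
    obtain ⟨O, h1, h2, h3⟩ := E.exists_isOpen_lt_of_lt (μ := μ) (min 1 (k : ℝ≥0∞)⁻¹)
      (by rw [h0]; simp)
    exact ⟨O, h1, h2, h3.le.trans (min_le_right _ _), h3.trans_le (min_le_left _ _)⟩
  choose O hEO hO hμO hO1 using h1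
  choose φ hφc hφO hφ0 using fun k => exists_inner_functions μ (hO k)
    ((hO1 k).trans ENNReal.one_lt_top).ne
  choose W hW hWφ using fun (k j : ℕ) (m : ℕ) => unif_cont (φ k j) (hφc k j)
    (ε := 1 / ((m : ℝ) + 1)) (by positivity)
  let e : ℕ ≃ ℕ × ℕ × ℕ := (Denumerable.eqv (ℕ × ℕ × ℕ)).symm
  let W' : ℕ → Set G := fun n => W (e n).1 (e n).2.1 (e n).2.2 ∩ {x | u * x ∈ U}
  have hW' : ∀ n, W' n ∈ 𝓝 (1 : G) := by
    intro n
    refine inter_mem (hW _ _ _) ?_
    have : Tendsto (fun x => u * x) (𝓝 (1:G)) (𝓝 u) := by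
      apply Continuous.tendsto' (by fun_prop)
      simp
    exact this (hU.mem_nhds hu)
  obtain ⟨N, hNn, hNc, hNW, hsc⟩ := kakutani_kodaira W' hW'
  haveI : IsClosed (N : Set G) := hNc.isClosed
  haveI : T2Space (G ⧸ N) := inferInstance
  have hker : (QuotientGroup.mk' N).ker = N := QuotientGroup.ker_mk' N
  refine pack_quot μ (QuotientGroup.mk' N) QuotientGroup.continuous_mk
    (QuotientGroup.mk'_surjective N) QuotientGroup.isOpenMap_coe
    (QuotientGroup.isClosedMap_coe hNc) (by rw [hker]; exact hNc) hE O hO hEO hμO φ hφ0 hφO ?_ hU u ?_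
  · intro k j x n hn
    rw [hker] at hn
    have hn' : x * n * x⁻¹ ∈ N := hNn.conj_mem n hn x
    have h2 : ∀ m : ℕ, |φ k j (x * n) - φ k j x| ≤ 1 / ((m : ℝ) + 1) := by
      intro m
      have h3 : x * n * x⁻¹ ∈ W' (e.symm (k, j, m)) := hNW _ hn'
      have h4 : x * n * x⁻¹ ∈ W k j m := by
        have := h3.1
        simpa using this
      have h5 := hWφ k j m _ h4 x
      simpa using h5.le
    have h6 : |φ k j (x * n) - φ k j x| ≤ 0 :=
      ge_of_tendsto' tendsto_one_div_add_atTop_nhds_zero_nat h2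
    exact sub_eq_zero.1 (abs_nonpos_iff.1 h6)
  · intro n hn
    rw [hker] at hn
    exact (hNW 0 hn).2

/-- an open σ-compact subgroup -/
theorem exists_open_sigmaCompact_subgroup (G : Type*) [Group G] [TopologicalSpace G]
    [IsTopologicalGroup G] [LocallyCompactSpace G] [T2Space G] :
    ∃ H : Subgroup G, IsOpen (H : Set G) ∧ IsSigmaCompact (H : Set G) := by
  obtain ⟨K, hKn, hKc, hKi, -, -⟩ := kk_step (isCompact_empty (X := G)) univ_mem univ_mem
  have hpow : ∀ n : ℕ, IsCompact (K ^ n) := by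
    intro n
    induction n with
    | zero => rw [pow_zero]; exact isCompact_singleton
    | succ n ih => rw [pow_succ]; exact ih.mul hKc
  let H : Subgroup G :=
    { carrier := ⋃ n : ℕ, K ^ n
      mul_mem' := by
        intro a b ha hb
        rw [mem_iUnion] at *
        obtain ⟨m, hm⟩ := ha
        obtain ⟨n, hn⟩ := hb
        exact ⟨m + n, by rw [pow_add]; exact mul_mem_mul hm hn⟩
      one_mem' := mem_iUnion.2 ⟨0, by rw [pow_zero]; exact Set.mem_one.2 rfl⟩
      inv_mem' := by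
        intro a ha
        rw [mem_iUnion] at *
        obtain ⟨m, hm⟩ := ha
        refine ⟨m, ?_⟩
        rw [← hKi, inv_pow]
        simpa using hm }
  have hH : (H : Set G) = ⋃ n : ℕ, K ^ n := rfl
  refine ⟨H, ?_, ?_⟩
  · apply Subgroup.isOpen_of_mem_nhds H (g := 1)
    refine mem_of_superset hKn ?_
    rw [hH]
    refine subset_trans ?_ (subset_iUnion _ 1)
    rw [pow_one]
  · rw [hH]
    exact isSigmaCompact_iUnion_of_isCompact _ hpow

theorem pack_in_subgroup {G : Type*} [Group G] [TopologicalSpace G] [IsTopologicalGroup G]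
    [LocallyCompactSpace G] [T2Space G] [MeasurableSpace G] [BorelSpace G]
    (μ : Measure G) [μ.IsHaarMeasure] [μ.Regular] (H : Subgroup G) (hHo : IsOpen (H : Set G))
    (hHs : IsSigmaCompact (H : Set G)) {E U : Set G} (hE : MeasurableSet E) (hEH : E ⊆ H)
    (h0 : μ E = 0) (hU : IsOpen U) (hne : U.Nonempty) : Pack E U := by
  obtain ⟨u, hu⟩ := hne
  haveI : SigmaCompactSpace H := isSigmaCompact_iff_sigmaCompactSpace.1 hHs
  haveI : LocallyCompactSpace H := hHo.locallyCompactSpace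
  have hemb : IsOpenEmbedding H.subtype := hHo.isOpenEmbedding_subtypeVal
  haveI : (μ.comap H.subtype).IsHaarMeasure := Measure.IsHaarMeasure.comap (mH := inferInstance) μ hemb
  haveI : (μ.comap H.subtype).Regular := Measure.Regular.comap' μ hemb
  have hE' : MeasurableSet (H.subtype ⁻¹' E) := hemb.continuous.measurable hE
  have h1 : Pack (H.subtype ⁻¹' E) (H.subtype ⁻¹' (u⁻¹ • U)) := by
    refine pack_sigma (μ.comap H.subtype) hE' ?_ ?_ ?_
    · rw [hemb.measurableEmbedding.comap_apply]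
      exact measure_mono_null (image_preimage_subset _ _) h0
    · exact (hU.smul u⁻¹).preimage hemb.continuous
    · refine ⟨1, ?_⟩
      rw [mem_preimage, mem_smul_set_iff_inv_smul_mem]
      simpa using hu
  have h2 := (h1.push H.subtype hemb.measurableEmbedding).translate 1 u
  rw [one_smul, image_preimage_eq_inter_range] at h2
  have h3 : E ∩ range H.subtype = E := by
    rw [Subgroup.coe_subtype, Subtype.range_coe]
    exact inter_eq_left.2 hEH
  rw [h3] at h2
  refine h2.mono ?_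
  rintro _ ⟨x, hx, rfl⟩
  obtain ⟨y, hy, rfl⟩ := hx
  rw [mem_preimage, mem_smul_set_iff_inv_smul_mem] at hy
  simpa using hy

theorem pack_general {G : Type*} [Group G] [TopologicalSpace G] [IsTopologicalGroup G]
    [LocallyCompactSpace G] [T2Space G] [MeasurableSpace G] [BorelSpace G]
    (μ : Measure G) [μ.IsHaarMeasure] [μ.Regular] {E U : Set G} (hE : MeasurableSet E)
    (h0 : μ E = 0) (hU : IsOpen U) (hne : U.Nonempty) : Pack E U := by
  classical
  by_cases hd : DiscreteTopology G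
  · have : E = ∅ := by
      by_contra hE0
      have hEo : IsOpen E := isOpen_discrete E
      have := hEo.measure_pos μ (nonempty_iff_ne_empty.2 hE0)
      exact this.ne' h0
    rw [this]
    exact Pack.empty U
  obtain ⟨H, hHo, hHs⟩ := exists_open_sigmaCompact_subgroup G
  obtain ⟨V, hVo, hVne, hVU, hVd⟩ := exists_disjoint_open hU (infinite_of_open hd hU hne)
  obtain ⟨O, hEO, hO, hO1⟩ := E.exists_isOpen_lt_of_lt (μ := μ) 1 (by rw [h0]; simp)
  haveI : DiscreteTopology (G ⧸ H) := QuotientGroup.discreteTopology hHo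
  -- countably many cosets
  haveI : IsFiniteMeasure (μ.restrict O) := ⟨by
    rw [Measure.restrict_apply_univ]
    exact hO1.trans ENNReal.one_lt_top⟩
  have hcos : ∀ s : Set (G ⧸ H), IsOpen (((↑) : G → G ⧸ H) ⁻¹' s) := fun s =>
    (isOpen_discrete s).preimage QuotientGroup.continuous_mk
  have hT : {q : G ⧸ H | 0 < (μ.restrict O) (((↑) : G → G ⧸ H) ⁻¹' {q})}.Countable := by
    apply Measure.countable_meas_pos_of_disjoint_iUnion
    · intro q
      exact (hcos _).measurableSet
    · intro p q hpq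
      exact (disjoint_singleton.2 hpq).preimage _
  obtain ⟨f, hf⟩ := countable_iff_exists_injOn.1 hT
  have hmem : ∀ x ∈ E, (x : G ⧸ H) ∈ {q : G ⧸ H | 0 < (μ.restrict O) (((↑) : G → G ⧸ H) ⁻¹' {q})} := by
    intro x hx
    change 0 < (μ.restrict O) (((↑) : G → G ⧸ H) ⁻¹' {(x : G ⧸ H)})
    rw [Measure.restrict_apply (hcos _).measurableSet]
    exact ((hcos _).inter hO).measure_pos μ ⟨x, rfl, hEO hx⟩
  let En : ℕ → Set G := fun n => E ∩ ((↑) : G → G ⧸ H) ⁻¹' (f ⁻¹' {n})
  have hEn : ⋃ n, En n = E := by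
    ext x
    simp only [mem_iUnion]
    constructor
    · rintro ⟨n, hn⟩
      exact hn.1
    · intro hx
      exact ⟨f x, hx, rfl⟩
  have hEnm : ∀ n, MeasurableSet (En n) := fun n => hE.inter (hcos _).measurableSet
  have hEnd : Pairwise (Function.onFun Disjoint En) := by
    intro m n hmn
    refine disjoint_left.2 ?_
    rintro x ⟨-, hx⟩ ⟨-, hx'⟩
    exact hmn (hx.symm.trans hx')
  rw [← hEn]
  refine (Pack.iUnion (E := En) (U := V) ?_ hEnd hVd).mono (iUnion_subset hVU)
  intro n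
  rcases (En n).eq_empty_or_nonempty with he | ⟨x, hx⟩
  · rw [he]
    exact Pack.empty _
  have h1 : x⁻¹ • En n ⊆ H := by
    rintro _ ⟨y, hy, rfl⟩
    have h2 : (x : G ⧸ H) = (y : G ⧸ H) := hf (hmem x hx.1) (hmem y hy.1) (hx.2.trans hy.2.symm)
    exact QuotientGroup.eq.1 h2
  have h3 : Pack (x⁻¹ • En n) (V n) := by
    refine pack_in_subgroup μ H hHo hHs ((hEnm n).const_smul _) h1 ?_ (hVo n) (hVne n)
    rw [measure_smul]
    exact measure_mono_null inter_subset_left h0
  have h4 := h3.translate x 1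
  rwa [smul_inv_smul, one_smul] at h4

/-- an outer regular Haar measure and the regular Haar measure have the same Borel null sets
(one direction) -/
theorem haar_null_of_outerRegular {G : Type*} [Group G] [TopologicalSpace G] [IsTopologicalGroup G]
    [LocallyCompactSpace G] [T2Space G] [MeasurableSpace G] [BorelSpace G]
    (μ : Measure G) [μ.IsHaarMeasure] [μ.OuterRegular] {E : Set G}
    (h0 : μ E = 0) : (Measure.haar : Measure G) E = 0 := by
  set c := Measure.haarScalarFactor (Measure.haar : Measure G) μ with hc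
  have h1 : ∀ V : Set G, IsOpen V → (Measure.haar : Measure G) V ≤ c * μ V := by
    intro V hV
    rw [hV.measure_eq_iSup_isCompact]
    refine iSup₂_le fun K hKV => iSup_le fun hK => ?_
    have := Measure.measure_isMulInvariant_eq_smul_of_isCompact_closure
      (Measure.haar : Measure G) μ (s := K) hK.closure
    rw [this]
    change (c : ℝ≥0∞) * μ K ≤ c * μ V
    gcongr
  have h2 : ∀ n : ℕ, (Measure.haar : Measure G) E ≤ c * (n : ℝ≥0∞)⁻¹ := by
    intro n
    obtain ⟨V, hEV, hV, hVn⟩ := E.exists_isOpen_lt_of_lt (μ := μ) (n : ℝ≥0∞)⁻¹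
      (by rw [h0]; simp)
    refine (measure_mono hEV).trans ((h1 V hV).trans ?_)
    gcongr
  have h3 : Tendsto (fun n : ℕ => (c : ℝ≥0∞) * (n : ℝ≥0∞)⁻¹) atTop (𝓝 (c * 0)) :=
    ENNReal.Tendsto.const_mul ENNReal.tendsto_inv_nat_nhds_zero (Or.inr ENNReal.coe_ne_top)
  rw [mul_zero] at h3
  exact le_antisymm (ge_of_tendsto' h3 h2) bot_le

/-- `A` is countably equidecomposable with `B` using left translations and Borel pieces. -/
def CountablyEquidecomposable {G : Type*} [Group G] [MeasurableSpace G] (A B : Set G) : Prop :=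
  ∃ (P Q : ℕ → Set G) (g : ℕ → G),
    (∀ i, MeasurableSet (P i)) ∧ (∀ i, MeasurableSet (Q i)) ∧
    Pairwise (Function.onFun Disjoint P) ∧ Pairwise (Function.onFun Disjoint Q) ∧
    (⋃ i, P i) = A ∧ (⋃ i, Q i) = B ∧ ∀ i, g i • P i = Q i

theorem result {G : Type*} [Group G] [TopologicalSpace G] [IsTopologicalGroup G]
    [LocallyCompactSpace G] [T2Space G] [MeasurableSpace G] [BorelSpace G]
    (μ : Measure G) [μ.IsHaarMeasure] [μ.OuterRegular] {E U : Set G} (hE : MeasurableSet E)
    (h0 : μ E = 0) (hU : IsOpen U) (hne : U.Nonempty) :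
    ∃ F ⊆ U, CountablyEquidecomposable E F := by
  obtain ⟨A, g, h1, h2, h3, h4, h5⟩ := pack_general (Measure.haar : Measure G) hE
    (haar_null_of_outerRegular μ h0) hU hne
  exact ⟨⋃ i, g i • A i, iUnion_subset h5, A, fun i => g i • A i, g, h1,
    fun i => (h1 i).const_smul _, h2, h4, h3, rfl, fun i => rfl⟩

end Groups

end Pool.Agent.Results.MP_5eb27c_an.NullSetsPack
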